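import Pool.Agent.T2H32.GM.Mod

set_option autoImplicit false

/-! # The fundamental lemma for intervals, arbitrary residue classes -/

open Finset Filter Topology
open Pool.Agent.T2H32.BF (V V_pos V_anti mertens)
open Pool.Agent.T2H32.GM (cls J1 J2 J3 Jf)

namespace Pool.Agent.T2H32.GB

/-- Chinese remainder count -/
theorem crt_count (s : Finset ℕ) (hs : ∀ p ∈ s, p.Prime) (Om : ℕ → Finset ℕ) (hOm : ∀ p ∈ s, Om p ⊆ range p) :
    (((range (∏ p ∈ s, p)).filter (fun a => ∀ p ∈ s, a % p ∉ Om p)).card : ℝ) =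
      (∏ p ∈ s, (p : ℝ)) * ∏ p ∈ s, (1 - ((Om p).card : ℝ) / p) := by
  classical
  induction s using Finset.induction_on with
  | empty => simp
  | @insert p s hps ih =>
    have hp : p.Prime := hs p (mem_insert_self _ _)
    have hs' : ∀ q ∈ s, q.Prime := fun q hq => hs q (mem_insert_of_mem hq)
    have ih' := ih hs' (fun q hq => hOm q (mem_insert_of_mem hq))
    set Q := ∏ q ∈ s, q with hQ
    have hQ0 : 0 < Q := prod_pos fun q hq => (hs' q hq).pos
    have hcop : p.Coprime Q := by
      refine Nat.Coprime.prod_right fun q hq => ?_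
      exact (Nat.coprime_primes hp (hs' q hq)).2 (fun h => hps (h ▸ hq))
    have hcard : ((range (∏ q ∈ insert p s, q)).filter (fun a => ∀ q ∈ insert p s, a % q ∉ Om q)).card =
        (((range p).filter (fun r => r ∉ Om p)) ×ˢ ((range Q).filter (fun a => ∀ q ∈ s, a % q ∉ Om q))).card := by
      rw [prod_insert hps, ← hQ]
      refine card_bij (fun a _ => (a % p, a % Q)) ?_ ?_ ?_
      · intro a ha
        rw [mem_filter, mem_range] at ha
        rw [mem_product, mem_filter, mem_filter, mem_range, mem_range]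
        refine ⟨⟨Nat.mod_lt _ hp.pos, ha.2 p (mem_insert_self _ _)⟩, Nat.mod_lt _ hQ0, fun q hq => ?_⟩
        have h1 : q ∣ Q := dvd_prod_of_mem _ hq
        rw [Nat.mod_mod_of_dvd a h1]
        exact ha.2 q (mem_insert_of_mem hq)
      · intro a ha b hb hab
        rw [mem_filter, mem_range] at ha hb
        simp only [Prod.mk.injEq] at hab
        have h1 : a ≡ b [MOD p * Q] := (Nat.modEq_and_modEq_iff_modEq_mul hcop).1 hab
        have h2 : a % (p * Q) = b % (p * Q) := h1
        rwa [Nat.mod_eq_of_lt ha.1, Nat.mod_eq_of_lt hb.1] at h2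
      · rintro ⟨r, a⟩ hra
        rw [mem_product, mem_filter, mem_filter, mem_range, mem_range] at hra
        obtain ⟨⟨h1, h2⟩, h3, h4⟩ := hra
        simp only at h1 h2 h3 h4
        obtain ⟨c, hc1, hc2⟩ := Nat.chineseRemainder hcop r a
        have e1 : c % (p * Q) % p = r := by
          rw [Nat.mod_mod_of_dvd c (Dvd.intro _ rfl)]
          have : c % p = r % p := hc1
          rwa [Nat.mod_eq_of_lt h1] at this
        have e2 : c % (p * Q) % Q = a := by
          rw [Nat.mod_mod_of_dvd c (Dvd.intro_left _ rfl)]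
          have : c % Q = a % Q := hc2
          rwa [Nat.mod_eq_of_lt h3] at this
        refine ⟨c % (p * Q), ?_, ?_⟩
        · rw [mem_filter, mem_range]
          refine ⟨Nat.mod_lt _ (Nat.mul_pos hp.pos hQ0), fun q hq => ?_⟩
          rcases mem_insert.1 hq with rfl | hq
          · rw [e1]
            exact h2
          · have h5 : q ∣ Q := dvd_prod_of_mem _ hq
            rw [← Nat.mod_mod_of_dvd (c % (p * Q)) h5, e2]
            exact h4 q hq
        · simp only [e1, e2]
    have hc1 : (((range p).filter (fun r => r ∉ Om p)).card : ℝ) = p * (1 - ((Om p).card : ℝ) / p) := by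
      have h1 : ((range p).filter (fun r => r ∉ Om p)) = range p \ Om p := by
        ext r
        simp
      have hp0 : (p : ℝ) ≠ 0 := by exact_mod_cast hp.pos.ne'
      rw [h1, card_sdiff_of_subset (hOm p (mem_insert_self _ _)), card_range, Nat.cast_sub]
      · field_simp
      · have := card_le_card (hOm p (mem_insert_self _ _))
        rwa [card_range] at this
    rw [hcard, card_product]
    push_cast
    rw [hc1, ih', prod_insert hps, prod_insert hps]
    ring

/-- **Fundamental lemma** -/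
theorem flg (κ : ℕ) (ε : ℝ) (hε : 0 < ε) : ∃ B : ℕ, ∃ K : ℝ, 0 < K ∧ ∀ (T : ℕ) (Om : ℕ → Finset ℕ),
    (∀ p ≤ T, p.Prime → Om p ⊆ range p ∧ (Om p).card ≤ κ) → ∀ k y : ℕ,
    |(((Ioc k (k + y)).filter (fun n => ∀ p ≤ T, p.Prime → n % p ∉ Om p)).card : ℝ) -
        y * ∏ p ∈ (range (T + 1)).filter Nat.Prime, (1 - ((Om p).card : ℝ) / p)| ≤
      ε * (y * ∏ p ∈ (range (T + 1)).filter Nat.Prime, (1 - ((Om p).card : ℝ) / p)) + K * ((T : ℝ) + 1) ^ B := by
  obtain ⟨C0, hC0, hfl⟩ := Pool.Agent.TH882.FL.fl1 κ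
  obtain ⟨n, hn⟩ := exists_pow_lt_of_lt_one hε (show (1 / 2 : ℝ) < 1 by norm_num)
  set b := max n C0 with hb
  have hbC : C0 ≤ b := le_max_right _ _
  have hbε : (1 / 2 : ℝ) ^ b ≤ ε :=
    (pow_le_pow_of_le_one (by norm_num) (by norm_num) (le_max_left _ _)).trans hn.le
  refine ⟨4 * C0 * b + 1, (primorial C0 : ℝ) * (3 * 4 ^ (2 * C0 * b)), ?_, ?_⟩
  · have := primorial_pos C0
    positivity
  -- the case `1 ≤ T`
  have main : ∀ (T : ℕ) (Om : ℕ → Finset ℕ), 1 ≤ T →
    (∀ p ≤ T, p.Prime → Om p ⊆ range p ∧ (Om p).card ≤ κ) → ∀ k y : ℕ,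
    |(((Ioc k (k + y)).filter (fun n => ∀ p ≤ T, p.Prime → n % p ∉ Om p)).card : ℝ) -
        y * ∏ p ∈ (range (T + 1)).filter Nat.Prime, (1 - ((Om p).card : ℝ) / p)| ≤
      ε * (y * ∏ p ∈ (range (T + 1)).filter Nat.Prime, (1 - ((Om p).card : ℝ) / p)) +
        (primorial C0 : ℝ) * (3 * 4 ^ (2 * C0 * b)) * (T : ℝ) ^ (4 * C0 * b + 1) := by
    intro T Om hT hOm k y
    set z1 := min C0 T with hz1
    set sm := (range (z1 + 1)).filter Nat.Prime with hsm
    have hsmp : ∀ p ∈ sm, p.Prime := fun p hp => (mem_filter.1 hp).2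
    have hsmT : ∀ p ∈ sm, p ≤ z1 := fun p hp => by
      have := mem_range.1 (mem_filter.1 hp).1
      omega
    set Q := ∏ p ∈ sm, p with hQ
    have hQ0 : 0 < Q := prod_pos fun p hp => (hsmp p hp).pos
    set P := (Ioc z1 T).filter Nat.Prime with hP
    have hPz : ∀ p ∈ P, p.Prime ∧ C0 < p ∧ p ≤ 2 ^ 2 ^ Jf T := by
      intro p hp
      rw [hP, mem_filter, mem_Ioc] at hp
      refine ⟨hp.2, ?_, hp.1.2.trans (J1 T)⟩
      have := hp.1.1
      rw [hz1] at this
      rcases min_lt_iff.1 this with h | h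
      · exact h
      · omega
    have hPOm : ∀ p ∈ P, Om p ⊆ range p ∧ (Om p).card ≤ κ := by
      intro p hp
      rw [hP, mem_filter, mem_Ioc] at hp
      exact hOm p hp.1.2 hp.2
    have hPQ : ∀ p ∈ P, p.Coprime Q := by
      intro p hp
      rw [hP, mem_filter, mem_Ioc] at hp
      refine Nat.Coprime.prod_right fun q hq => ?_
      refine (Nat.coprime_primes hp.2 (hsmp q hq)).2 ?_
      have := hsmT q hq
      omega
    have hpos : ∀ p ≤ T, p.Prime → 0 ≤ 1 - ((Om p).card : ℝ) / p := by
      intro p hp hpp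
      have h1 := card_le_card (hOm p hp hpp).1
      rw [card_range] at h1
      have h2 : ((Om p).card : ℝ) ≤ p := by exact_mod_cast h1
      have hp0 : (0 : ℝ) < p := by exact_mod_cast hpp.pos
      rw [sub_nonneg, div_le_one hp0]
      exact h2
    set W2 := ∏ p ∈ P, (1 - ((Om p).card : ℝ) / p) with hW2
    have hW2nn : 0 ≤ W2 := by
      refine prod_nonneg fun p hp => ?_
      rw [hP, mem_filter, mem_Ioc] at hp
      exact hpos p hp.1.2 hp.2
    have hmain : ∀ a : ℕ, |((((Ioc k (k + y)).filter (fun n => n ≡ a [MOD Q])).filter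
        (fun n => ∀ p ∈ P, n % p ∉ Om p)).card : ℝ) - (y / Q) * W2| ≤
        (1 / 2 : ℝ) ^ b * ((y / Q) * W2) + ((Jf T : ℝ) + 2) * (((2 ^ 2 ^ Jf T : ℕ) : ℝ) ^ (C0 * b)) ^ 2 := by
      intro a
      have h := hfl b (Jf T) C0 P Om hbC le_rfl hPz (fun p hp => (hPOm p hp).2)
        ((Ioc k (k + y)).filter (fun n => n ≡ a [MOD Q])) (y / Q) (by positivity) ?_
      · exact h
      · intro T' hT' c hc
        have hprime : ∀ p ∈ T', p.Prime := fun p hp => (hPz p (hT' hp)).1
        have hD : 0 < ∏ p ∈ T', p := prod_pos fun p hp => (hprime p hp).pos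
        -- a common solution
        obtain ⟨r0, hr0⟩ : ∃ r, ∀ p ∈ T', r % p = c p := by
          have hco : Set.Pairwise (T' : Set ℕ) (Function.onFun Nat.Coprime (fun p => p)) := by
            intro p hp q hq hne
            exact (Nat.coprime_primes (hprime p hp) (hprime q hq)).2 hne
          obtain ⟨r, hr⟩ := Nat.chineseRemainderOfFinset c (fun p => p) T'
            (fun p hp => (hprime p hp).pos.ne') hco
          refine ⟨r, fun p hp => ?_⟩
          have h1 := hr p hp
          have h2 : r % p = c p % p := h1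
          have h3 : c p < p := mem_range.1 ((hPOm p (hT' hp)).1 (hc p hp))
          rwa [Nat.mod_eq_of_lt h3] at h2
        have hcopD : Q.Coprime (∏ p ∈ T', p) :=
          Nat.Coprime.symm (Nat.Coprime.prod_left fun p hp => hPQ p (hT' hp))
        obtain ⟨r, hr1, hr2⟩ := Nat.chineseRemainder hcopD a r0
        have e : ((Ioc k (k + y)).filter (fun n => n ≡ a [MOD Q])).filter (fun n => ∀ p ∈ T', n % p = c p) =
            (Ioc k (k + y)).filter (fun n => n ≡ r [MOD (Q * ∏ p ∈ T', p)]) := by
          rw [filter_filter]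
          refine filter_congr fun n _ => ?_
          rw [← Nat.modEq_and_modEq_iff_modEq_mul hcopD]
          constructor
          · rintro ⟨h1, h2⟩
            refine ⟨h1.trans hr1.symm, ?_⟩
            have h3 : n ≡ r0 [MOD ∏ p ∈ T', p] := by
              rw [Nat.modEq_iff_dvd]
              have h4 : ∀ p ∈ T', (p : ℤ) ∣ (r0 : ℤ) - n := by
                intro p hp
                have h5 : n ≡ r0 [MOD p] := (h2 p hp).trans (hr0 p hp).symm
                exact (Nat.modEq_iff_dvd).1 h5
              rw [Nat.cast_prod]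
              refine Finset.prod_dvd_of_coprime ?_ h4
              intro p hp q hq hne
              exact (Nat.isCoprime_iff_coprime).2 ((Nat.coprime_primes (hprime p hp) (hprime q hq)).2 hne)
            exact h3.trans hr2.symm
          · rintro ⟨h1, h2⟩
            refine ⟨h1.trans hr1, fun p hp => ?_⟩
            have h3 : n ≡ r0 [MOD ∏ p ∈ T', p] := h2.trans hr2
            have h4 : n ≡ r0 [MOD p] := h3.of_dvd (dvd_prod_of_mem _ hp)
            have h5 : n % p = r0 % p := h4
            rw [h5, hr0 p hp]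
        rw [e]
        have := cls (Q * ∏ p ∈ T', p) (Nat.mul_pos hQ0 hD) r k y
        push_cast at this
        rw [div_div]
        exact this
    -- the admissible classes modulo `Q`
    set R := (range Q).filter (fun a => ∀ p ∈ sm, a % p ∉ Om p) with hR
    have hcount : ((Ioc k (k + y)).filter (fun n => ∀ p ≤ T, p.Prime → n % p ∉ Om p)).card =
        ∑ a ∈ R, ((((Ioc k (k + y)).filter (fun n => n ≡ a [MOD Q])).filter
        (fun n => ∀ p ∈ P, n % p ∉ Om p)).card) := by
      rw [card_eq_sum_card_fiberwise (f := fun n => n % Q) (t := R)]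
      · refine sum_congr rfl fun a ha => ?_
        rw [hR, mem_filter, mem_range] at ha
        congr 1
        ext n
        simp only [mem_filter]
        constructor
        · rintro ⟨⟨h1, h2⟩, h3⟩
          refine ⟨⟨h1, ?_⟩, ?_⟩
          · rw [Nat.ModEq, h3, Nat.mod_eq_of_lt ha.1]
          · intro p hp
            rw [hP, mem_filter, mem_Ioc] at hp
            exact h2 p hp.1.2 hp.2
        · rintro ⟨⟨h1, h2⟩, h3⟩
          have h4 : n % Q = a := by
            rw [Nat.ModEq, Nat.mod_eq_of_lt ha.1] at h2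
            exact h2
          refine ⟨⟨h1, ?_⟩, h4⟩
          intro p hp1 hp2
          rcases le_or_gt p z1 with h5 | h5
          · have hps : p ∈ sm := by
              rw [hsm, mem_filter, mem_range]
              exact ⟨by omega, hp2⟩
            have h6 : p ∣ Q := dvd_prod_of_mem _ hps
            have h7 : n % p = a % p := by
              rw [← h4, Nat.mod_mod_of_dvd n h6]
            rw [h7]
            exact ha.2 p hps
          · exact h3 p (by rw [hP, mem_filter, mem_Ioc]; exact ⟨⟨h5, hp1⟩, hp2⟩)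
      · intro n hn
        rw [mem_coe, mem_filter] at hn
        rw [mem_coe, hR, mem_filter, mem_range]
        refine ⟨Nat.mod_lt _ hQ0, fun p hp => ?_⟩
        show n % Q % p ∉ Om p
        have h6 : p ∣ Q := dvd_prod_of_mem _ hp
        rw [Nat.mod_mod_of_dvd n h6]
        exact hn.2 p ((hsmT p hp).trans (min_le_right _ _)) (hsmp p hp)
    have hRcard : (R.card : ℝ) = (Q : ℝ) * ∏ p ∈ sm, (1 - ((Om p).card : ℝ) / p) := by
      have := crt_count sm hsmp Om (fun p hp => (hOm p ((hsmT p hp).trans (min_le_right _ _)) (hsmp p hp)).1)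
      rw [← hQ] at this
      rw [hR, this, hQ]
      push_cast
      rfl
    have hprod : ∏ p ∈ (range (T + 1)).filter Nat.Prime, (1 - ((Om p).card : ℝ) / p) =
        (∏ p ∈ sm, (1 - ((Om p).card : ℝ) / p)) * W2 := by
      rw [hW2, ← prod_union]
      · refine prod_congr ?_ fun _ _ => rfl
        ext p
        simp only [hsm, hP, mem_union, mem_filter, mem_range, mem_Ioc]
        have : z1 ≤ T := min_le_right _ _
        constructor
        · rintro ⟨h1, h2⟩
          rcases le_or_gt p z1 with h3 | h3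
          · exact Or.inl ⟨by omega, h2⟩
          · exact Or.inr ⟨⟨h3, by omega⟩, h2⟩
        · rintro (⟨h1, h2⟩ | ⟨⟨h1, h1'⟩, h2⟩)
          · exact ⟨by omega, h2⟩
          · exact ⟨by omega, h2⟩
      · rw [disjoint_left]
        intro p hp hp'
        rw [hP, mem_filter, mem_Ioc] at hp'
        have := hsmT p hp
        omega
    have hV : (R.card : ℝ) * ((y / Q) * W2) =
        y * ∏ p ∈ (range (T + 1)).filter Nat.Prime, (1 - ((Om p).card : ℝ) / p) := by
      rw [hRcard, hprod]
      have : (Q : ℝ) ≠ 0 := by exact_mod_cast hQ0.ne'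
      field_simp
    have hφ : (R.card : ℝ) ≤ primorial C0 := by
      have h1 : R.card ≤ Q := (card_filter_le _ _).trans (by rw [card_range])
      have h2 : Q ≤ primorial C0 := by
        have : Q = primorial z1 := rfl
        rw [this]
        exact primorial_mono (min_le_left _ _)
      exact_mod_cast h1.trans h2
    rw [hcount]
    push_cast
    have hsum : |∑ a ∈ R, ((((Ioc k (k + y)).filter (fun n => n ≡ a [MOD Q])).filter
        (fun n => ∀ p ∈ P, n % p ∉ Om p)).card : ℝ) -
          y * ∏ p ∈ (range (T + 1)).filter Nat.Prime, (1 - ((Om p).card : ℝ) / p)| ≤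
        ∑ a ∈ R, ((1 / 2 : ℝ) ^ b * ((y / Q) * W2) +
          ((Jf T : ℝ) + 2) * (((2 ^ 2 ^ Jf T : ℕ) : ℝ) ^ (C0 * b)) ^ 2) := by
      rw [← hV, ← nsmul_eq_mul, ← sum_const, ← sum_sub_distrib]
      exact (abs_sum_le_sum_abs _ _).trans (sum_le_sum fun a _ => hmain a)
    refine hsum.trans ?_
    rw [sum_const, nsmul_eq_mul, mul_add, ← mul_assoc, mul_comm _ ((1 / 2 : ℝ) ^ b), mul_assoc, hV]
    have hW : 0 ≤ (y : ℝ) * ∏ p ∈ (range (T + 1)).filter Nat.Prime, (1 - ((Om p).card : ℝ) / p) := by
      refine mul_nonneg (Nat.cast_nonneg _) (prod_nonneg fun p hp => ?_)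
      rw [mem_filter, mem_range] at hp
      exact hpos p (by omega) hp.2
    refine add_le_add (mul_le_mul_of_nonneg_right hbε hW) ?_
    have h1 : ((Jf T : ℝ) + 2) ≤ 3 * T := by exact_mod_cast J3 T hT
    have h2 : (((2 ^ 2 ^ Jf T : ℕ) : ℝ)) ≤ 4 * (T : ℝ) ^ 2 := by exact_mod_cast J2 T hT
    have h3 : (((2 ^ 2 ^ Jf T : ℕ) : ℝ) ^ (C0 * b)) ^ 2 ≤ ((4 * (T : ℝ) ^ 2) ^ (C0 * b)) ^ 2 := by gcongr
    calc (R.card : ℝ) * (((Jf T : ℝ) + 2) * (((2 ^ 2 ^ Jf T : ℕ) : ℝ) ^ (C0 * b)) ^ 2)
        ≤ primorial C0 * ((3 * T) * ((4 * (T : ℝ) ^ 2) ^ (C0 * b)) ^ 2) := by gcongr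
      _ = _ := by
        rw [← pow_mul, mul_pow, ← pow_mul]
        ring
  intro T Om hOm k y
  rcases Nat.eq_zero_or_pos T with h | h
  · subst h
    have h1 := main 1 Om le_rfl (fun p hp hpp => absurd hpp.two_le (by omega)) k y
    have e1 : (range (1 + 1)).filter Nat.Prime = (range (0 + 1)).filter Nat.Prime := by decide
    have e2 : (Ioc k (k + y)).filter (fun n => ∀ p ≤ 1, p.Prime → n % p ∉ Om p) =
        (Ioc k (k + y)).filter (fun n => ∀ p ≤ 0, p.Prime → n % p ∉ Om p) := by
      refine filter_congr fun n _ => ?_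
      constructor
      · intro h p hp hpp
        exact absurd hpp.two_le (by omega)
      · intro h p hp hpp
        exact absurd hpp.two_le (by omega)
    rw [e1, e2] at h1
    simpa using h1
  · refine (main T Om h hOm k y).trans ?_
    have := primorial_pos C0
    gcongr
    linarith

end Pool.Agent.T2H32.GB
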