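import Pool.Agent.T2H32.GB.Low
import Pool.Agent.T2H32.CM.Exist

set_option autoImplicit false

/-! # Assembly -/

open MeasureTheory ProbabilityTheory Filter Topology Finset
open scoped ENNReal
open Pool.Agent.T2H32.BF (V V_pos V_anti mertens)
open Pool.Agent.T2H32.GM (q q_nonneg q_le_one Rg tlog kpow_atTop)

namespace Pool.Agent.T2H32.GB

/-- the partial products of the twin prime constant -/
noncomputable def C2 (n : ℕ) : ℝ := ∏ p ∈ (range (n + 1)).filter (fun p => p.Prime ∧ p ≠ 2), (1 - 1 / ((p : ℝ) - 1) ^ 2)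

theorem C2_succ (n : ℕ) : C2 (n + 1) = (if (n + 1).Prime ∧ n + 1 ≠ 2 then 1 - 1 / (n : ℝ) ^ 2 else 1) * C2 n := by
  unfold C2
  rw [range_add_one (n := n + 1), filter_insert]
  split_ifs with h
  · rw [prod_insert (by simp)]
    push_cast
    congr 3
    ring
  · rw [one_mul]

theorem C2_pos (n : ℕ) : 0 < C2 n := by
  unfold C2
  refine prod_pos fun p hp => ?_
  rw [mem_filter] at hp
  have := fc_pos p hp.2.1
  unfold fc at this
  rwa [if_neg hp.2.2] at this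

theorem C2_anti : Antitone C2 := by
  refine antitone_nat_of_succ_le fun n => ?_
  rw [C2_succ]
  have h := C2_pos n
  split_ifs with h1
  · have : 0 ≤ 1 / (n : ℝ) ^ 2 := by positivity
    nlinarith
  · linarith

theorem C2_ge (n : ℕ) : 1 / 2 ≤ C2 n := by
  have key : ∀ n : ℕ, ((n : ℝ) + 2) / (2 * ((n : ℝ) + 1)) ≤ C2 (n + 2) := by
    intro n
    induction n with
    | zero =>
      have e : C2 (0 + 2) = 1 := by
        unfold C2
        rw [prod_eq_one]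
        intro p hp
        rw [mem_filter, mem_range] at hp
        have := hp.2.1.two_le
        omega
      rw [e]
      norm_num
    | succ n ih =>
      rw [show n + 1 + 2 = (n + 2) + 1 from rfl, C2_succ]
      have hn : (0 : ℝ) ≤ n := Nat.cast_nonneg n
      have h1 : 1 / ((n + 2 : ℕ) : ℝ) ^ 2 ≤ 1 := by
        rw [div_le_one (by positivity)]
        push_cast
        nlinarith
      have h2 : 1 - 1 / ((n + 2 : ℕ) : ℝ) ^ 2 ≤
          (if (n + 2 + 1).Prime ∧ n + 2 + 1 ≠ 2 then 1 - 1 / ((n + 2 : ℕ) : ℝ) ^ 2 else 1) := by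
        split_ifs
        · exact le_rfl
        · have : 0 ≤ 1 / ((n + 2 : ℕ) : ℝ) ^ 2 := by positivity
          linarith
      have h3 : (((n + 1 : ℕ) : ℝ) + 2) / (2 * (((n + 1 : ℕ) : ℝ) + 1)) =
          (1 - 1 / ((n + 2 : ℕ) : ℝ) ^ 2) * (((n : ℝ) + 2) / (2 * ((n : ℝ) + 1))) := by
        push_cast
        field_simp
        ring
      rw [h3]
      have h4 := C2_pos (n + 2)
      have h5 : 0 ≤ ((n : ℝ) + 2) / (2 * ((n : ℝ) + 1)) := by positivity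
      calc (1 - 1 / ((n + 2 : ℕ) : ℝ) ^ 2) * (((n : ℝ) + 2) / (2 * ((n : ℝ) + 1))) ≤
            (1 - 1 / ((n + 2 : ℕ) : ℝ) ^ 2) * C2 (n + 2) := by
            have : 0 ≤ 1 - 1 / ((n + 2 : ℕ) : ℝ) ^ 2 := by linarith
            gcongr
        _ ≤ _ := by gcongr
  have h1 := key n
  have h2 : C2 (n + 2) ≤ C2 n := C2_anti (by omega)
  have h3 : 1 / 2 ≤ ((n : ℝ) + 2) / (2 * ((n : ℝ) + 1)) := by
    have hn : (0 : ℝ) ≤ n := Nat.cast_nonneg n
    rw [div_le_div_iff₀ (by norm_num) (by positivity)]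
    linarith
  linarith

theorem S2_eq (s : ℕ) (hs : 2 ≤ s) : S2 s = 2 * C2 s := by
  unfold S2 C2
  have e : PP s = insert 2 ((range (s + 1)).filter (fun p => p.Prime ∧ p ≠ 2)) := by
    ext p
    rw [mem_PP, mem_insert, mem_filter, mem_range]
    constructor
    · rintro ⟨h1, h2⟩
      by_cases h : p = 2
      · exact Or.inl h
      · exact Or.inr ⟨by omega, h2, h⟩
    · rintro (h | h)
      · rw [h]
        exact ⟨hs, Nat.prime_two⟩
      · exact ⟨by omega, h.2.1⟩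
  rw [e, prod_insert (by simp)]
  congr 1
  refine prod_congr rfl fun p hp => ?_
  rw [mem_filter] at hp
  unfold fc
  rw [if_neg hp.2.2]

theorem C2_lim (T : ℕ → ℕ) (hT : Monotone T) : ∃ κ : ℝ, 1 / 2 ≤ κ ∧ Tendsto (fun k => C2 (T k)) atTop (𝓝 κ) := by
  have h1 : Antitone (fun k => C2 (T k)) := fun a b h => C2_anti (hT h)
  have h2 : BddBelow (Set.range (fun k => C2 (T k))) := ⟨1 / 2, by
    rintro _ ⟨k, rfl⟩
    exact C2_ge _⟩
  exact ⟨_, le_ciInf fun k => C2_ge _, tendsto_atTop_ciInf h1 h2⟩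

variable {Ω : Type*} [MeasurableSpace Ω] {P : Measure Ω}

/-- the model -/
structure Mdl (P : Measure Ω) (T : ℕ → ℕ) (A : ℕ → Set Ω) : Prop where
  mono : Monotone T
  two : ∀ k, 2 ≤ T k
  small : Tendsto (fun k : ℕ => Real.log (T k) / Real.log (Real.log k)) atTop (𝓝 0)
  measurable : ∀ k, MeasurableSet (A k)
  independent : iIndepSet A P
  probability : ∀ k, P.real (A k) = q T k

variable {T : ℕ → ℕ} {A : ℕ → Set Ω}

theorem Mdl.null (h : Mdl P T A) : ∀ᵐ ω ∂P, ∀ n, q T n = 0 → ω ∉ A n := by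
  have := h.independent.isProbabilityMeasure
  rw [ae_all_iff]
  intro n
  by_cases hn : q T n = 0
  · have h1 : P.real (A n) = 0 := by rw [h.probability, hn]
    rw [measureReal_eq_zero_iff] at h1
    filter_upwards [measure_eq_zero_iff_ae_notMem.1 h1] with ω hω _
    exact hω
  · exact Eventually.of_forall fun _ h => absurd h hn

theorem summable_two (e : ℝ) (he : 0 < e) : Summable (fun j : ℕ => (((2 : ℕ) ^ j : ℕ) : ℝ) ^ (-e)) := by
  have h1 : ∀ j : ℕ, (((2 : ℕ) ^ j : ℕ) : ℝ) ^ (-e) = ((2 : ℝ) ^ (-e)) ^ j := by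
    intro j
    push_cast
    rw [← Real.rpow_natCast (2 : ℝ) j, ← Real.rpow_mul (by norm_num), ← Real.rpow_natCast, ← Real.rpow_mul (by norm_num)]
    congr 1
    ring
  simp only [h1]
  refine summable_geometric_of_lt_one (by positivity) ?_
  exact Real.rpow_lt_one_of_one_lt_of_neg (by norm_num) (by linarith)

theorem summable_log (K0 : ℝ) : Summable (fun j : ℕ => K0 * Real.log (((2 : ℕ) ^ j : ℕ) : ℝ) ^ (-(3 / 2) : ℝ)) := by
  refine Summable.mul_left _ ?_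
  have h1 : ∀ j : ℕ, Real.log (((2 : ℕ) ^ j : ℕ) : ℝ) ^ (-(3 / 2) : ℝ) =
      (j : ℝ) ^ (-(3 / 2) : ℝ) * Real.log 2 ^ (-(3 / 2) : ℝ) := by
    intro j
    push_cast
    rw [Real.log_pow, Real.mul_rpow (Nat.cast_nonneg j) (Real.log_nonneg (by norm_num))]
  simp only [h1]
  exact (Real.summable_nat_rpow.2 (by norm_num)).mul_right _

/-- many exceptional numbers in `[2 ^ j, 2 ^ (j + 1)]` -/
theorem Mdl.dyadic (h : Mdl P T A) (κ : ℝ) (hκ : Tendsto (fun k => C2 (T k)) atTop (𝓝 κ)) (hκ0 : 0 < κ)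
    (c e : ℝ) (hc : 0 < c) (he : 0 < e) (hec : e < 1 - c * κ) :
    ∀ᵐ ω ∂P, ∀ᶠ j : ℕ in atTop, (((2 : ℕ) ^ j : ℕ) : ℝ) ^ e ≤ NI A c (2 ^ j) ω := by
  have hp := h.independent.isProbabilityMeasure
  have hσ : Tendsto (fun k => S2 (T k)) atTop (𝓝 (2 * κ)) := by
    have e : (fun k => S2 (T k)) = (fun k => 2 * C2 (T k)) := by
      funext k
      exact S2_eq _ (h.two k)
    rw [e]
    exact hκ.const_mul 2
  have e1 : c * (2 * κ) / 2 = c * κ := by ring
  obtain ⟨K0, hK0, hsc⟩ := scale (P := P) T h.mono h.two h.small A h.measurable h.independent h.probability (2 * κ)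
    (by linarith) hσ c (1 - c * κ - e) hc (by linarith) (by rw [e1]; linarith)
  rw [e1] at hsc
  have e2 : 1 - c * κ - (1 - c * κ - e) = e := by ring
  rw [e2] at hsc
  obtain ⟨J, hJ⟩ := eventually_atTop.1 hsc
  have h2 : ∀ j : ℕ, J ≤ j → J ≤ 2 ^ j := fun j hj => hj.trans Nat.lt_two_pow_self.le
  choose G hG1 hG2 using fun (j : ℕ) (hj : J ≤ j) => hJ (2 ^ j) (h2 j hj)
  set G' : ℕ → Set Ω := fun j => if hj : J ≤ j then G j hj else ∅ with hG'
  have hsum : ∑' j : ℕ, P (G' j) ≠ ∞ := by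
    have hb : ∀ j : ℕ, P (G' j) ≤ ENNReal.ofReal (K0 * Real.log (((2 : ℕ) ^ j : ℕ) : ℝ) ^ (-(3 / 2) : ℝ)) +
        ENNReal.ofReal ((((2 : ℕ) ^ j : ℕ) : ℝ) ^ (-e)) := by
      intro j
      simp only [hG']
      split_ifs with hj
      · exact hG1 j hj
      · simp
    refine ne_top_of_le_ne_top ?_ (ENNReal.tsum_le_tsum hb)
    rw [ENNReal.tsum_add]
    exact ENNReal.add_ne_top.2 ⟨(summable_log K0).tsum_ofReal_ne_top, (summable_two e he).tsum_ofReal_ne_top⟩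
  filter_upwards [ae_eventually_notMem hsum, h.null] with ω hω hn
  filter_upwards [hω, eventually_ge_atTop J] with j hj hJ
  simp only [hG', dif_pos hJ] at hj
  exact hG2 j hJ ω hj hn

omit [MeasurableSpace Ω] in
theorem NI_le_NX (A : ℕ → Set Ω) (c : ℝ) (k x : ℕ) (h : 2 * k ≤ x) (ω : Ω) : NI A c k ω ≤ NX A c x ω := by
  unfold NI NX
  exact Set.ncard_le_ncard (fun m hm => ⟨hm.2.1.trans h, hm.2.2⟩) (NX_fin A c x ω)

theorem Mdl.low (h : Mdl P T A) (κ : ℝ) (hκ : Tendsto (fun k => C2 (T k)) atTop (𝓝 κ)) (hκ0 : 0 < κ)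
    (c e' : ℝ) (hc : 0 < c) (he' : 0 ≤ e') (hec : e' < 1 - c * κ) :
    ∀ᵐ ω ∂P, ∀ᶠ x : ℕ in atTop, (x : ℝ) ^ e' ≤ NX A c x ω := by
  obtain ⟨e, he1, he2⟩ := exists_between hec
  filter_upwards [h.dyadic κ hκ hκ0 c e hc (by linarith) he2] with ω hω
  obtain ⟨J, hJ⟩ := eventually_atTop.1 hω
  have h2 := (kpow_atTop (e - e') (by linarith)).eventually_ge_atTop ((4 : ℝ) ^ e)
  filter_upwards [h2, eventually_ge_atTop (2 ^ (J + 2))] with x h3 h4
  have hx0 : x ≠ 0 := by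
    have := Nat.two_pow_pos (J + 2)
    omega
  have hxR : (0 : ℝ) < x := by exact_mod_cast Nat.pos_of_ne_zero hx0
  set l := Nat.log 2 x with hl
  have hl1 : 2 ^ l ≤ x := Nat.pow_log_le_self 2 hx0
  have hl2 : x < 2 ^ (l + 1) := Nat.lt_pow_succ_log_self (by norm_num) x
  have hlJ : J + 2 ≤ l := (Nat.le_log_iff_pow_le (by norm_num) hx0).2 h4
  have h5 := hJ (l - 1) (by omega)
  have e1 : 2 * 2 ^ (l - 1) = 2 ^ l := by
    rw [← pow_succ']
    congr 1
    omega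
  have h6 : NI A c (2 ^ (l - 1)) ω ≤ NX A c x ω := NI_le_NX A c _ x (by omega) ω
  have h7 : (x : ℝ) / 4 ≤ ((2 ^ (l - 1) : ℕ) : ℝ) := by
    have e2 : 2 ^ (l + 1) = 4 * 2 ^ (l - 1) := by
      have : 2 ^ (l + 1) = 2 * 2 ^ l := by ring
      omega
    rw [e2] at hl2
    have : (x : ℝ) < 4 * ((2 ^ (l - 1) : ℕ) : ℝ) := by exact_mod_cast hl2
    linarith
  calc (x : ℝ) ^ e' = ((4 : ℝ) ^ e)⁻¹ * ((4 : ℝ) ^ e * (x : ℝ) ^ e') := by
        have : (0 : ℝ) < (4 : ℝ) ^ e := by positivity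
        field_simp
    _ ≤ ((4 : ℝ) ^ e)⁻¹ * ((x : ℝ) ^ (e - e') * (x : ℝ) ^ e') := by gcongr
    _ = ((x : ℝ) / 4) ^ e := by
        rw [← Real.rpow_add hxR, Real.div_rpow hxR.le (by norm_num)]
        have : e - e' + e' = e := by ring
        rw [this]
        field_simp
    _ ≤ (((2 ^ (l - 1) : ℕ) : ℝ)) ^ e := Real.rpow_le_rpow (by positivity) h7 (by linarith)
    _ ≤ NI A c (2 ^ (l - 1)) ω := h5
    _ ≤ NX A c x ω := by exact_mod_cast h6

/-- exceptional numbers in all intervals `[n, 4n]` -/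
theorem Mdl.intervals (h : Mdl P T A) (κ : ℝ) (hκ : Tendsto (fun k => C2 (T k)) atTop (𝓝 κ)) (hκ0 : 0 < κ)
    (c e : ℝ) (hc : 0 < c) (he : 0 < e) (hec : e < 1 - c * κ) :
    ∀ᵐ ω ∂P, ∀ᶠ n : ℕ in atTop, (n : ℝ) ^ e ≤ {m | n ≤ m ∧ m ≤ 4 * n ∧ ω ∈ EX A c m}.ncard := by
  filter_upwards [h.dyadic κ hκ hκ0 c e hc he hec] with ω hω
  obtain ⟨J, hJ⟩ := eventually_atTop.1 hω
  filter_upwards [eventually_gt_atTop (2 ^ J), eventually_gt_atTop 1] with n hn hn1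
  have h1 : n ≤ 2 ^ Nat.clog 2 n := Nat.le_pow_clog (by norm_num) n
  have h2 : 2 ^ (Nat.clog 2 n).pred < n := Nat.pow_pred_clog_lt_self (by norm_num) hn1
  have hJl : J < Nat.clog 2 n := by
    by_contra hcon
    have : 2 ^ Nat.clog 2 n ≤ 2 ^ J := Nat.pow_le_pow_right (by norm_num) (by omega)
    omega
  have h3 := hJ (Nat.clog 2 n) hJl.le
  have h4 : 2 ^ Nat.clog 2 n = 2 * 2 ^ (Nat.clog 2 n).pred := by
    rw [← pow_succ']
    congr 1
    have : (Nat.clog 2 n).pred = Nat.clog 2 n - 1 := rfl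
    omega
  have h5 : NI A c (2 ^ Nat.clog 2 n) ω ≤ {m | n ≤ m ∧ m ≤ 4 * n ∧ ω ∈ EX A c m}.ncard := by
    unfold NI
    refine Set.ncard_le_ncard ?_ ((Set.finite_Iic (4 * n)).subset fun _ hn => hn.2.1)
    rintro m ⟨h6, h7, h8⟩
    exact ⟨by omega, by omega, h8⟩
  have h6 : (n : ℝ) ≤ (((2 : ℕ) ^ Nat.clog 2 n : ℕ) : ℝ) := by exact_mod_cast h1
  calc (n : ℝ) ^ e ≤ (((2 : ℕ) ^ Nat.clog 2 n : ℕ) : ℝ) ^ e := Real.rpow_le_rpow (Nat.cast_nonneg n) h6 he.le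
    _ ≤ NI A c (2 ^ Nat.clog 2 n) ω := h3
    _ ≤ _ := by exact_mod_cast h5

theorem Mdl.up (h : Mdl P T A) (κ : ℝ) (hκ : Tendsto (fun k => C2 (T k)) atTop (𝓝 κ)) (hκ0 : 0 < κ)
    (c s : ℝ) (hc : 0 < c) (hs : 0 ≤ s) (hsc : 1 - c * κ < s) :
    ∀ᵐ ω ∂P, ∃ C : ℝ, ∀ x : ℕ, (NX A c x ω : ℝ) ≤ C * ((x : ℝ) + 1) ^ s := by
  have hp := h.independent.isProbabilityMeasure
  refine up_ae T h.mono h.two h.small A h.measurable h.independent h.probability (2 * κ) (by linarith) ?_ c s hc hs ?_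
  · intro k
    rw [S2_eq _ (h.two k)]
    have h1 : Antitone (fun k => C2 (T k)) := fun a b h' => C2_anti (h.mono h')
    have := h1.le_of_tendsto hκ k
    linarith
  · have : c * (2 * κ) / 2 = c * κ := by ring
    rw [this]
    exact hsc

/-- **Finitely many exceptions** -/
theorem Mdl.fin (h : Mdl P T A) (κ : ℝ) (hκ : Tendsto (fun k => C2 (T k)) atTop (𝓝 κ)) (hκ0 : 0 < κ)
    (c : ℝ) (hc : 1 / κ < c) : ∀ᵐ ω ∂P, {m | ω ∈ EX A c m}.Finite := by
  have hc0 : 0 < c := lt_trans (by positivity) hc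
  have hcκ : 1 < c * κ := by
    rwa [div_lt_iff₀ hκ0] at hc
  filter_upwards [h.up κ hκ hκ0 c 0 hc0 le_rfl (by linarith)] with ω ⟨C, hC⟩
  simp only [Real.rpow_zero, mul_one] at hC
  by_contra hcon
  have hcon : {m | ω ∈ EX A c m}.Infinite := hcon
  obtain ⟨m, hm⟩ := exists_nat_gt C
  obtain ⟨s, hs1, hs2⟩ := hcon.exists_subset_card_eq m
  obtain ⟨x, hx⟩ := s.bddAbove
  have h1 : (s.card : ℝ) ≤ NX A c x ω := by
    unfold NX
    rw [← Set.ncard_coe_finset]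
    have h2 := Set.ncard_le_ncard (s := (s : Set ℕ)) (t := {m | m ≤ x ∧ ω ∈ EX A c m})
      (fun n hn => ⟨hx (mem_coe.2 hn), hs1 hn⟩) (NX_fin A c x ω)
    exact_mod_cast h2
  rw [hs2] at h1
  linarith [hC x]

/-- **The counts** -/
theorem Mdl.count (h : Mdl P T A) (κ : ℝ) (hκ : Tendsto (fun k => C2 (T k)) atTop (𝓝 κ)) (hκ0 : 0 < κ)
    (c : ℝ) (hc0 : 0 < c) (hc : c < 1 / κ) :
    ∀ᵐ ω ∂P, Tendsto (fun x : ℕ => Real.log (NX A c x ω) / Real.log x) atTop (𝓝 (1 - c * κ)) := by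
  have hcκ : c * κ < 1 := by
    rwa [lt_div_iff₀ hκ0] at hc
  have hb : 0 < c * κ := by positivity
  have hup : ∀ᵐ ω ∂P, ∀ m : ℕ, ∃ C : ℝ, ∀ x : ℕ, (NX A c x ω : ℝ) ≤ C * ((x : ℝ) + 1) ^ (1 - c * κ + 1 / ((m : ℝ) + 1)) := by
    rw [ae_all_iff]
    intro m
    have hm : (0 : ℝ) < 1 / ((m : ℝ) + 1) := by positivity
    exact h.up κ hκ hκ0 c _ hc0 (by linarith) (by linarith)
  have hlo : ∀ᵐ ω ∂P, ∀ m : ℕ, ∀ᶠ x : ℕ in atTop, (x : ℝ) ^ (max 0 (1 - c * κ - 1 / ((m : ℝ) + 1))) ≤ NX A c x ω := by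
    rw [ae_all_iff]
    intro m
    have hm : (0 : ℝ) < 1 / ((m : ℝ) + 1) := by positivity
    exact h.low κ hκ hκ0 c _ hc0 (le_max_left _ _) (max_lt (by linarith) (by linarith))
  filter_upwards [hup, hlo] with ω h1 h2
  rw [Metric.tendsto_atTop]
  intro ε hε
  obtain ⟨m, hm⟩ := exists_nat_one_div_lt (show 0 < ε / 4 by positivity)
  obtain ⟨C, hC⟩ := h1 m
  have hlog2 : ∀ᶠ x : ℕ in atTop, Real.log (max C 1) + (1 - c * κ + 1 / ((m : ℝ) + 1)) * Real.log 2 ≤ ε / 4 * Real.log x := by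
    filter_upwards [(tlog.const_mul_atTop (show 0 < ε / 4 by positivity)).eventually_ge_atTop
      (Real.log (max C 1) + (1 - c * κ + 1 / ((m : ℝ) + 1)) * Real.log 2)] with x hx
    exact hx
  obtain ⟨X, hX⟩ := eventually_atTop.1 ((h2 m).and (hlog2.and ((tlog.eventually_gt_atTop 0).and (eventually_ge_atTop 1))))
  refine ⟨X, fun x hx => ?_⟩
  obtain ⟨h3, h4, h5, h6⟩ := hX x hx
  have hx0 : (0 : ℝ) < x := by exact_mod_cast (by omega : 0 < x)
  have hx1 : (1 : ℝ) ≤ x := by exact_mod_cast h6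
  have hm0 : (0 : ℝ) < 1 / ((m : ℝ) + 1) := by positivity
  have hN0 : (0 : ℝ) < NX A c x ω := lt_of_lt_of_le (by positivity) h3
  -- lower
  have h7 : (1 - c * κ - 1 / ((m : ℝ) + 1)) * Real.log x ≤ Real.log (NX A c x ω) := by
    have h8 := Real.log_le_log (by positivity) h3
    rw [Real.log_rpow hx0] at h8
    refine le_trans ?_ h8
    exact mul_le_mul_of_nonneg_right (le_max_right _ _) h5.le
  -- upper
  have h8 : Real.log (NX A c x ω) ≤ (1 - c * κ + 1 / ((m : ℝ) + 1)) * Real.log x + ε / 4 * Real.log x := by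
    have h9 : (NX A c x ω : ℝ) ≤ max C 1 * (2 * (x : ℝ)) ^ (1 - c * κ + 1 / ((m : ℝ) + 1)) := by
      refine (hC x).trans ?_
      have h10 : ((x : ℝ) + 1) ^ (1 - c * κ + 1 / ((m : ℝ) + 1)) ≤ (2 * (x : ℝ)) ^ (1 - c * κ + 1 / ((m : ℝ) + 1)) :=
        Real.rpow_le_rpow (by positivity) (by linarith) (by linarith)
      have h11 : C ≤ max C 1 := le_max_left _ _
      have h12 : 0 < max C 1 := lt_max_of_lt_right one_pos
      calc C * ((x : ℝ) + 1) ^ (1 - c * κ + 1 / ((m : ℝ) + 1)) ≤ max C 1 * ((x : ℝ) + 1) ^ (1 - c * κ + 1 / ((m : ℝ) + 1)) := by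
            gcongr
        _ ≤ _ := by gcongr
    have h12 : 0 < max C 1 := lt_max_of_lt_right one_pos
    have h10 := Real.log_le_log hN0 h9
    rw [Real.log_mul h12.ne' (by positivity), Real.log_rpow (by positivity), Real.log_mul (by norm_num) hx0.ne'] at h10
    linarith
  rw [Real.dist_eq, abs_lt]
  constructor
  · have h9 : 1 - c * κ - ε / 4 ≤ Real.log (NX A c x ω) / Real.log x := by
      rw [le_div_iff₀ h5]
      refine le_trans ?_ h7
      gcongr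
    linarith
  · have h9 : Real.log (NX A c x ω) / Real.log x ≤ 1 - c * κ + ε / 4 + ε / 4 := by
      rw [div_le_iff₀ h5]
      refine h8.trans ?_
      have : (1 - c * κ + 1 / ((m : ℝ) + 1)) * Real.log x ≤ (1 - c * κ + ε / 4) * Real.log x := by gcongr
      linarith
    linarith

/-- the least summand -/
noncomputable def g {Ω : Type*} (A : ℕ → Set Ω) (ω : Ω) (m : ℕ) : EReal :=
  ⨅ p ∈ {p : ℕ | p ≤ m ∧ ω ∈ A p ∧ ω ∈ A (m - p)}, ((p : ℝ) : EReal)

omit [MeasurableSpace Ω] in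
theorem EX_iff (A : ℕ → Set Ω) (c : ℝ) (m : ℕ) (ω : Ω) :
    ω ∈ EX A c m ↔ Even m ∧ ((c * thr m : ℝ) : EReal) < g A ω m := by
  unfold EX g
  rw [Set.mem_ofPred_eq]
  refine and_congr_right fun _ => ?_
  constructor
  · intro h
    have h1 : ((c * thr m : ℝ) : EReal) < (((⌊c * thr m⌋ : ℝ) + 1 : ℝ) : EReal) := by
      rw [EReal.coe_lt_coe_iff]
      exact Int.lt_floor_add_one _
    refine h1.trans_le (le_iInf₂ fun p hp => ?_)
    rw [EReal.coe_le_coe_iff]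
    have h2 : c * thr m < p := not_le.1 fun h3 => h p hp.1 h3 hp.2.1 hp.2.2
    have h3 : ⌊c * thr m⌋ < (p : ℤ) := Int.floor_lt.2 (by exact_mod_cast h2)
    have h4 : ⌊c * thr m⌋ + 1 ≤ (p : ℤ) := h3
    exact_mod_cast h4
  · intro h p hp hpc h1 h2
    have h3 : (⨅ p ∈ {p : ℕ | p ≤ m ∧ ω ∈ A p ∧ ω ∈ A (m - p)}, ((p : ℝ) : EReal)) ≤ ((p : ℝ) : EReal) :=
      iInf₂_le p ⟨hp, h1, h2⟩
    have h4 := h.trans_le h3
    rw [EReal.coe_lt_coe_iff] at h4
    linarith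

theorem thr_even_pos : ∀ᶠ n : ℕ in atTop, 0 < thr (2 * n) :=
  (thr_atTop.comp Pool.Agent.T2H32.GM.t2).eventually_gt_atTop 0

/-- **The limsup** -/
theorem Mdl.limsup_eq (h : Mdl P T A) (κ : ℝ) (hκ : Tendsto (fun k => C2 (T k)) atTop (𝓝 κ)) (hκ0 : 0 < κ) :
    ∀ᵐ ω ∂P, limsup (fun n : ℕ => g A ω (2 * n) / ((thr (2 * n) : ℝ) : EReal)) atTop = ((1 / κ : ℝ) : EReal) := by
  have hik : 0 < 1 / κ := by positivity
  have hup : ∀ᵐ ω ∂P, ∀ m : ℕ, {n | ω ∈ EX A (1 / κ + 1 / ((m : ℝ) + 1)) n}.Finite := by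
    rw [ae_all_iff]
    intro m
    have hm : (0 : ℝ) < 1 / ((m : ℝ) + 1) := by positivity
    exact h.fin κ hκ hκ0 _ (by linarith)
  have hlo : ∀ᵐ ω ∂P, ∀ m : ℕ, ∃ᶠ n : ℕ in atTop, ω ∈ EX A (1 / κ * (1 - 1 / ((m : ℝ) + 2))) (2 * n) := by
    rw [ae_all_iff]
    intro m
    have hm2 : (2 : ℝ) ≤ (m : ℝ) + 2 := by
      have : (0 : ℝ) ≤ m := Nat.cast_nonneg m
      linarith
    have hm : 1 / ((m : ℝ) + 2) ≤ 1 / 2 := by gcongr
    have hm0 : 0 < 1 / ((m : ℝ) + 2) := by positivity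
    have e1 : 1 / κ * (1 - 1 / ((m : ℝ) + 2)) * κ = 1 - 1 / ((m : ℝ) + 2) := by
      field_simp
    have hcc : 0 < 1 / κ * (1 - 1 / ((m : ℝ) + 2)) := by
      have : 0 < 1 - 1 / ((m : ℝ) + 2) := by linarith
      positivity
    filter_upwards [h.intervals κ hκ hκ0 (1 / κ * (1 - 1 / ((m : ℝ) + 2))) (1 / (2 * ((m : ℝ) + 2))) hcc (by positivity) (by
      rw [e1]
      have h1 : 1 / (2 * ((m : ℝ) + 2)) < 1 / ((m : ℝ) + 2) := by
        apply one_div_lt_one_div_of_lt (by positivity)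
        linarith
      linarith)] with ω hω
    rw [frequently_atTop]
    intro N
    obtain ⟨X, hX⟩ := eventually_atTop.1 hω
    have h1 := hX (max X (2 * N + 1)) (le_max_left _ _)
    have h2 : (0 : ℝ) < ((max X (2 * N + 1) : ℕ) : ℝ) ^ (1 / (2 * ((m : ℝ) + 2))) := by
      have : 0 < max X (2 * N + 1) := lt_max_of_lt_right (by omega)
      have h3 : (0 : ℝ) < ((max X (2 * N + 1) : ℕ) : ℝ) := by exact_mod_cast this
      positivity
    have h3 := h2.trans_le h1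
    rw [Nat.cast_pos] at h3
    obtain ⟨a, ha1, ha2, ha3⟩ := Set.nonempty_of_ncard_ne_zero h3.ne'
    have ha4 := ha3.1
    obtain ⟨b, hb⟩ := ha4
    refine ⟨b, ?_, ?_⟩
    · have : 2 * N + 1 ≤ max X (2 * N + 1) := le_max_right _ _
      omega
    · have : 2 * b = a := by omega
      rw [this]
      exact ha3
  filter_upwards [hup, hlo] with ω h1 h2
  apply le_antisymm
  · have h3 : ∀ m : ℕ, limsup (fun n : ℕ => g A ω (2 * n) / ((thr (2 * n) : ℝ) : EReal)) atTop ≤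
        ((1 / κ + 1 / ((m : ℝ) + 1) : ℝ) : EReal) := by
      intro m
      refine limsup_le_of_le ?_ ?_
      · exact isCobounded_le_of_bot
      obtain ⟨X, hX⟩ := (h1 m).bddAbove
      filter_upwards [eventually_gt_atTop X, thr_even_pos] with n hn hn2
      rw [EReal.div_le_iff_le_mul (by exact_mod_cast hn2) (EReal.coe_ne_top _), ← EReal.coe_mul]
      by_contra hcon
      push Not at hcon
      have h4 : ω ∈ EX A (1 / κ + 1 / ((m : ℝ) + 1)) (2 * n) := by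
        rw [EX_iff]
        refine ⟨even_two_mul n, ?_⟩
        rw [mul_comm]
        exact hcon
      have := hX h4
      omega
    have h4 : Tendsto (fun m : ℕ => ((1 / κ + 1 / ((m : ℝ) + 1) : ℝ) : EReal)) atTop (𝓝 ((1 / κ : ℝ) : EReal)) := by
      have h5 : Tendsto (fun m : ℕ => (1 / κ + 1 / ((m : ℝ) + 1) : ℝ)) atTop (𝓝 (1 / κ)) := by
        have := tendsto_one_div_add_atTop_nhds_zero_nat (𝕜 := ℝ)
        simpa using this.const_add (1 / κ)
      exact (continuous_coe_real_ereal.tendsto _).comp h5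
    exact ge_of_tendsto' h4 h3
  · have h3 : ∀ m : ℕ, ((1 / κ * (1 - 1 / ((m : ℝ) + 2)) : ℝ) : EReal) ≤
        limsup (fun n : ℕ => g A ω (2 * n) / ((thr (2 * n) : ℝ) : EReal)) atTop := by
      intro m
      refine le_limsup_of_frequently_le ?_ isBounded_le_of_top
      refine ((h2 m).and_eventually thr_even_pos).mono ?_
      rintro n ⟨hn1, hn2⟩
      rw [EX_iff] at hn1
      rw [EReal.le_div_iff_mul_le (by exact_mod_cast hn2) (EReal.coe_ne_top _), ← EReal.coe_mul]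
      exact hn1.2.le
    have h4 : Tendsto (fun m : ℕ => ((1 / κ * (1 - 1 / ((m : ℝ) + 2)) : ℝ) : EReal)) atTop (𝓝 ((1 / κ : ℝ) : EReal)) := by
      have h5 : Tendsto (fun m : ℕ => (1 / κ * (1 - 1 / ((m : ℝ) + 2)) : ℝ)) atTop (𝓝 (1 / κ)) := by
        have h6 : Tendsto (fun m : ℕ => 1 / ((m : ℝ) + 2)) atTop (𝓝 0) :=
          tendsto_const_nhds.div_atTop (tendsto_atTop_add_const_right _ _ tendsto_natCast_atTop_atTop)
        simpa using (h6.const_sub 1).const_mul (1 / κ)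
      exact (continuous_coe_real_ereal.tendsto _).comp h5
    exact le_of_tendsto' h4 h3

end Pool.Agent.T2H32.GB
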