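import Pool.Agent.T2H32.GB.Up
import Pool.Agent.T2H32.GM.Low

set_option autoImplicit false

/-! # Many exceptional even numbers -/

open MeasureTheory ProbabilityTheory Filter Topology Finset
open scoped ENNReal
open Pool.Agent.T2H32.BF (V V_pos V_anti mertens)
open Pool.Agent.T2H32.CM (S)
open Pool.Agent.T2H32.GM (q q_nonneg q_le_one Rg tlog Vinv Vinv_anti t2 log2k T_small q_ev log_pow_small Tpow
  log2_bounds' const_int one_sub_ge Rg_period exp_log_pow kpow_atTop)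

namespace Pool.Agent.T2H32.GB

theorem q_le (T : ℕ → ℕ) (j : ℕ) : q T j ≤ (V (T j))⁻¹ / Real.log j := by
  unfold q
  have h1 := V_pos (T j)
  have h2 := Real.log_natCast_nonneg j
  split_ifs with h
  · refine (min_le_right _ _).trans (le_of_eq ?_)
    rw [one_div, mul_inv, div_eq_mul_inv]
  · positivity

/-- the range of the small summands at scale `k` -/
noncomputable def yg (c : ℝ) (k : ℕ) : ℕ := ⌊c * thr (2 * k)⌋₊

theorem yg_le (c ε : ℝ) (hc : 0 < c) (hε : 0 < ε) : ∀ᶠ k : ℕ in atTop,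
    (yg c k : ℝ) ≤ (1 + ε) * c * (Real.log k ^ 2 * Real.log (Real.log k)) := by
  set δ := min (ε / 8) 1 with hδ
  have hδ0 : 0 < δ := lt_min (by positivity) one_pos
  have hδ1 : δ ≤ 1 := min_le_right _ _
  have hδε : δ ≤ ε / 8 := min_le_left _ _
  filter_upwards [log2_bounds' δ hδ0, tll.eventually_ge_atTop 1, tlog.eventually_ge_atTop 1] with k h1 h2 h3
  have h4 : Real.log (Real.log ((2 * k : ℕ) : ℝ)) ≤ (1 + δ) * Real.log (Real.log k) := by
    have h5 : Real.log (Real.log ((2 * k : ℕ) : ℝ)) ≤ Real.log ((1 + δ) * Real.log k) :=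
      Real.log_le_log (by linarith [h1.1]) h1.2
    rw [Real.log_mul (by linarith) (by linarith)] at h5
    have h6 : Real.log (1 + δ) ≤ δ := by
      have := Real.log_le_sub_one_of_pos (show 0 < 1 + δ by linarith)
      linarith
    nlinarith
  have h7 : (1 + δ) ^ 3 ≤ 1 + ε := by
    have h8 : δ ^ 2 ≤ δ := by nlinarith
    have h9 : δ ^ 3 ≤ δ := by
      calc δ ^ 3 = δ ^ 2 * δ := by ring
        _ ≤ δ * 1 := by gcongr
        _ = δ := mul_one _
    have h10 : (1 + δ) ^ 3 = 1 + 3 * δ + 3 * δ ^ 2 + δ ^ 3 := by ring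
    linarith
  have h8 : 0 ≤ Real.log (Real.log ((2 * k : ℕ) : ℝ)) := Real.log_nonneg (by linarith [h1.1])
  have h9 : 0 ≤ Real.log ((2 * k : ℕ) : ℝ) := by linarith [h1.1]
  calc (yg c k : ℝ) ≤ c * thr (2 * k) := Nat.floor_le (by unfold thr; positivity)
    _ ≤ c * (((1 + δ) * Real.log k) ^ 2 * ((1 + δ) * Real.log (Real.log k))) := by
      unfold thr
      gcongr
      exact h1.2
    _ = (1 + δ) ^ 3 * (c * (Real.log k ^ 2 * Real.log (Real.log k))) := by ring
    _ ≤ (1 + ε) * (c * (Real.log k ^ 2 * Real.log (Real.log k))) := by gcongr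
    _ = _ := by ring

theorem thr_mono (m m' : ℕ) (h1 : 1 ≤ Real.log m) (hm : 1 ≤ m) (h : m ≤ m') : thr m ≤ thr m' := by
  have h2 : Real.log m ≤ Real.log m' := Real.log_le_log (by exact_mod_cast hm) (by exact_mod_cast h)
  have h3 : Real.log (Real.log m) ≤ Real.log (Real.log m') := Real.log_le_log (by linarith) h2
  have h4 : 0 ≤ Real.log (Real.log m) := Real.log_nonneg h1
  unfold thr
  gcongr

section

variable (T : ℕ → ℕ) (hT : Monotone T) (hT2 : ∀ k, 2 ≤ T k)
  (hlog : Tendsto (fun k : ℕ => Real.log (T k) / Real.log (Real.log k)) atTop (𝓝 0))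

include hT hT2 hlog in
/-- **The mass of the dangerous small numbers** -/
theorem mass (σ : ℝ) (hσ : 0 < σ) (hσl : Tendsto (fun k => S2 (T k)) atTop (𝓝 σ)) (c κ : ℝ) (hc : 0 < c)
    (hκ : 0 < κ) :
    ∀ᶠ k : ℕ in atTop, ∀ t m : ℕ, T k ≤ t → t ≤ T (2 * k) → k ≤ m → Even m →
      (∀ p ≤ t, p.Prime → p ≠ 2 → ¬ p ∣ m) →
      ∑ j ∈ Ioc 0 (yg c k), (if Rg (T j) j ∧ Rg t (m - j) then q T j else 0) ≤
        (1 + κ) * (c * σ / 2) * V t * Real.log k ^ 2 := by
  set ε := min (κ / 8) (1 / 4) with hε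
  have hε0 : 0 < ε := lt_min (by positivity) (by norm_num)
  have hε1 : 8 * ε ≤ κ := by
    have : ε ≤ κ / 8 := min_le_left _ _
    linarith
  have hε2 : ε ≤ 1 / 4 := min_le_right _ _
  have hTl := T_o T hlog
  obtain ⟨B, K, hK, h⟩ := small_up ε hε0
  have hu : Tendsto (fun k : ℕ => ⌊Real.log k ^ (2 - ε)⌋₊) atTop atTop :=
    tendsto_nat_floor_atTop.comp ((tendsto_rpow_atTop (by linarith)).comp tlog)
  have hS := (hσl.comp hu).eventually_lt_const (show σ < (1 + ε) * σ by nlinarith)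
  have hpw : Tendsto (fun k : ℕ => Real.log k ^ (-(ε / 2) : ℝ)) atTop (𝓝 0) :=
    (tendsto_rpow_neg_atTop (by positivity)).comp tlog
  filter_upwards [hS, hpw.eventually_lt_const (show 0 < ε * (c * σ / 2) by positivity),
    Vinv (ε / 2) (by positivity), T_small T hTl 2 (by norm_num), Tpow T hlog B (1 / 2) (by norm_num),
    yg_le c ε hc hε0, tll.eventually_ge_atTop 1, tlog.eventually_ge_atTop (max 3 (K / (ε * (c * σ / 2)))),
    hu.eventually_ge_atTop 2, thr_small (4 * ((1 + ε) * c + 1)) (by positivity), log_pow_small 2 1 1 one_pos,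
    (tll.eventually_ge_atTop 1)] with k h1 h2 h3 h4 h5 h6 h7 h8 h9 h10 h10' h10'' t m ht1 ht2 hkm hm hd
  set lam := Real.log k with hlam
  set ll := Real.log lam with hll
  have hlam3 : 3 ≤ lam := (le_max_left _ _).trans h8
  have hlamK : K / (ε * (c * σ / 2)) ≤ lam := (le_max_right _ _).trans h8
  rw [div_le_iff₀ (by positivity)] at hlamK
  obtain ⟨u, hud⟩ : ∃ u, u = ⌊lam ^ (2 - ε)⌋₊ := ⟨_, rfl⟩
  simp only [Function.comp_apply] at h1
  rw [← hud] at h1 h9
  obtain ⟨y, hyd⟩ : ∃ y, y = yg c k := ⟨_, rfl⟩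
  rw [← hyd] at h6 ⊢
  have hVp := V_pos t
  have ht4 : (t : ℝ) ≤ 2 * lam := by
    have : (t : ℝ) ≤ T (2 * k) := by exact_mod_cast ht2
    linarith
  have hVinv : (V t)⁻¹ ≤ lam ^ (ε / 2) := h3 t ht4
  have hul : (u : ℝ) ≤ lam ^ (2 - ε) := by
    rw [hud]
    exact Nat.floor_le (by positivity)
  have hlam0 : 0 < lam := by linarith
  -- the first part
  have huV : (u : ℝ) ≤ ε * (c * σ / 2) * V t * lam ^ 2 := by
    have e1 : lam ^ (2 - ε) = lam ^ 2 * lam ^ (-(ε / 2) : ℝ) * (lam ^ (ε / 2))⁻¹ := by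
      rw [← Real.rpow_neg hlam0.le, ← Real.rpow_natCast lam 2, ← Real.rpow_add hlam0, ← Real.rpow_add hlam0]
      congr 1
      push_cast
      ring
    have e2 : (lam ^ (ε / 2))⁻¹ ≤ V t := by
      have := inv_anti₀ (inv_pos.2 hVp) hVinv
      rwa [inv_inv] at this
    calc (u : ℝ) ≤ lam ^ (2 - ε) := hul
      _ = lam ^ 2 * lam ^ (-(ε / 2) : ℝ) * (lam ^ (ε / 2))⁻¹ := e1
      _ ≤ lam ^ 2 * (ε * (c * σ / 2)) * V t := by gcongr
      _ = _ := by ring
  have hmain0 : 0 ≤ (c * σ / 2) * V t * lam ^ 2 := by positivity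
  by_cases huy : y ≤ u
  · -- everything is in the first part
    have h11 : ∑ j ∈ Ioc 0 y, (if Rg (T j) j ∧ Rg t (m - j) then q T j else 0) ≤ ∑ j ∈ Ioc 0 y, (1 : ℝ) := by
      refine sum_le_sum fun j _ => ?_
      split_ifs
      · exact q_le_one T j
      · exact zero_le_one
    refine h11.trans ?_
    rw [sum_const, Nat.card_Ioc, nsmul_eq_mul, mul_one]
    have h12 : ((y - 0 : ℕ) : ℝ) ≤ u := by exact_mod_cast (by omega : y - 0 ≤ u)
    have h13 : ε * (c * σ / 2) * V t * lam ^ 2 ≤ (1 + κ) * (c * σ / 2) * V t * lam ^ 2 := by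
      have e : ε ≤ 1 + κ := by linarith
      gcongr
    linarith
  · have huy' : u ≤ y := by omega
    have hsplit : Ioc 0 y = Ioc 0 u ∪ Ioc u y := by
      ext j
      simp only [mem_union, mem_Ioc]
      omega
    have hdisj : Disjoint (Ioc 0 u) (Ioc u y) := by
      rw [Finset.disjoint_left]
      intro j h1 h2
      rw [mem_Ioc] at h1 h2
      omega
    rw [hsplit, sum_union hdisj]
    have hpart1 : ∑ j ∈ Ioc 0 u, (if Rg (T j) j ∧ Rg t (m - j) then q T j else 0) ≤ u := by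
      have h11 : ∑ j ∈ Ioc 0 u, (if Rg (T j) j ∧ Rg t (m - j) then q T j else 0) ≤ ∑ j ∈ Ioc 0 u, (1 : ℝ) := by
        refine sum_le_sum fun j _ => ?_
        split_ifs
        · exact q_le_one T j
        · exact zero_le_one
      refine h11.trans (le_of_eq ?_)
      rw [sum_const, Nat.card_Ioc, nsmul_eq_mul, mul_one, Nat.sub_zero]
    have hym : y ≤ k := by
      have h11 : (y : ℝ) ≤ k := by
        unfold thr at h10
        have h12 : 0 ≤ lam ^ 2 * ll := by positivity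
        have h13 : (1 + ε) * c * (lam ^ 2 * ll) ≤ 4 * ((1 + ε) * c + 1) * (lam ^ 2 * ll) := by
          have : 0 < (1 + ε) * c := by positivity
          exact mul_le_mul_of_nonneg_right (by linarith) h12
        exact (h6.trans h13).trans h10
      exact_mod_cast h11
    have hdl : (2 - ε) * ll ≤ Real.log ((u + 1 : ℕ) : ℝ) := by
      have h11 : lam ^ (2 - ε) < ((u + 1 : ℕ) : ℝ) := by
        rw [hud]
        push_cast
        exact Nat.lt_floor_add_one _
      have h12 := Real.log_le_log (by positivity) h11.le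
      rwa [Real.log_rpow hlam0] at h12
    have hdl0 : 0 < (2 - ε) * ll := by
      have : 0 < 2 - ε := by linarith
      positivity
    have hpart2 : ∑ j ∈ Ioc u y, (if Rg (T j) j ∧ Rg t (m - j) then q T j else 0) ≤
        ((1 + ε) * V t * S2 (T u) * ((y : ℝ) - u) + K * ((t : ℝ) + 1) ^ B * (V t)⁻¹) / ((2 - ε) * ll) := by
      have h11 := h T hT hT2 m u (y - u) t hm (by omega) ((hT (by omega : u + (y - u) ≤ k)).trans ht1) hd
      have e1 : u + (y - u) = y := by omega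
      rw [e1, Nat.cast_sub huy'] at h11
      rw [le_div_iff₀ hdl0]
      refine le_trans ?_ h11
      rw [sum_mul]
      refine sum_le_sum fun j hj => ?_
      rw [mem_Ioc] at hj
      split_ifs with hc'
      · have h12 : (2 - ε) * ll ≤ Real.log j := by
          refine hdl.trans (Real.log_le_log (by positivity) (by exact_mod_cast hj.1))
        have h13 := q_le T j
        have h14 := V_pos (T j)
        have h15 : 0 < Real.log j := hdl0.trans_le h12
        calc q T j * ((2 - ε) * ll) ≤ (V (T j))⁻¹ / Real.log j * Real.log j := by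
              have := q_nonneg T j
              gcongr
          _ = (V (T j))⁻¹ := by field_simp
      · rw [zero_mul]
    have hS2 := S2_pos (T u)
    have hyu : (y : ℝ) - u ≤ (1 + ε) * c * (lam ^ 2 * ll) := by
      have : (0 : ℝ) ≤ u := Nat.cast_nonneg u
      linarith
    have hyu0 : (0 : ℝ) ≤ (y : ℝ) - u := by
      have : (u : ℝ) ≤ y := by exact_mod_cast huy'
      linarith
    have hA1 : (1 + ε) * V t * S2 (T u) * ((y : ℝ) - u) ≤ (1 + ε) ^ 3 * (V t * (σ * (c * (lam ^ 2 * ll)))) := by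
      calc (1 + ε) * V t * S2 (T u) * ((y : ℝ) - u) ≤
            (1 + ε) * V t * ((1 + ε) * σ) * ((1 + ε) * c * (lam ^ 2 * ll)) := by gcongr
        _ = _ := by ring
    have hA2 : K * ((t : ℝ) + 1) ^ B * (V t)⁻¹ ≤ ε * (c * σ / 2) * V t * lam ^ 2 := by
      have h11 : ((t : ℝ) + 1) ^ B ≤ lam ^ (1 / 2 : ℝ) := by
        refine le_trans ?_ h5
        have : (t : ℝ) ≤ T (2 * k) := by exact_mod_cast ht2
        gcongr
      have h12 : (V t)⁻¹ ≤ lam ^ (1 / 4 : ℝ) :=
        hVinv.trans (Real.rpow_le_rpow_of_exponent_le (by linarith) (by linarith))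
      have h13 : K * ((t : ℝ) + 1) ^ B * (V t)⁻¹ * (V t)⁻¹ ≤ ε * (c * σ / 2) * lam ^ 2 := by
        calc K * ((t : ℝ) + 1) ^ B * (V t)⁻¹ * (V t)⁻¹ ≤ K * lam ^ (1 / 2 : ℝ) * lam ^ (1 / 4 : ℝ) * lam ^ (1 / 4 : ℝ) := by
              gcongr
          _ = K * lam := by
              rw [mul_assoc, mul_assoc, ← Real.rpow_add hlam0, ← Real.rpow_add hlam0]
              norm_num
          _ ≤ (lam * (ε * (c * σ / 2))) * lam := by gcongr
          _ = _ := by ring
      calc K * ((t : ℝ) + 1) ^ B * (V t)⁻¹ = (K * ((t : ℝ) + 1) ^ B * (V t)⁻¹ * (V t)⁻¹) * V t := by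
            field_simp
        _ ≤ (ε * (c * σ / 2) * lam ^ 2) * V t := by gcongr
        _ = _ := by ring
    have hA3 : (1 + ε) ^ 3 ≤ (1 + 6 * ε) * (1 - ε / 2) := by
      have h8 : ε ^ 2 ≤ 1 / 4 * ε := by nlinarith
      have h9 : ε ^ 3 ≤ 1 / 16 * ε := by
        calc ε ^ 3 = ε ^ 2 * ε := by ring
          _ ≤ (1 / 4 * ε) * (1 / 4) := by gcongr
          _ = _ := by ring
      have h10 : (1 + ε) ^ 3 = 1 + 3 * ε + 3 * ε ^ 2 + ε ^ 3 := by ring
      have h11 : (1 + 6 * ε) * (1 - ε / 2) = 1 + 11 / 2 * ε - 3 * ε ^ 2 := by ring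
      rw [h10, h11]
      nlinarith
    have hpart2' : ((1 + ε) * V t * S2 (T u) * ((y : ℝ) - u) + K * ((t : ℝ) + 1) ^ B * (V t)⁻¹) / ((2 - ε) * ll) ≤
        (1 + 7 * ε) * ((c * σ / 2) * V t * lam ^ 2) := by
      rw [div_le_iff₀ hdl0]
      have hB1 : (1 + ε) ^ 3 * (V t * (σ * (c * (lam ^ 2 * ll)))) ≤
          (1 + 6 * ε) * ((c * σ / 2) * V t * lam ^ 2) * ((2 - ε) * ll) := by
        calc (1 + ε) ^ 3 * (V t * (σ * (c * (lam ^ 2 * ll)))) ≤
              ((1 + 6 * ε) * (1 - ε / 2)) * (V t * (σ * (c * (lam ^ 2 * ll)))) := by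
              gcongr
          _ = _ := by ring
      have hB2 : ε * (c * σ / 2) * V t * lam ^ 2 ≤ ε * ((c * σ / 2) * V t * lam ^ 2) * ((2 - ε) * ll) := by
        have h11 : 1 ≤ (2 - ε) * ll := by nlinarith
        have h12 : 0 ≤ ε * ((c * σ / 2) * V t * lam ^ 2) := by positivity
        calc ε * (c * σ / 2) * V t * lam ^ 2 = ε * ((c * σ / 2) * V t * lam ^ 2) * 1 := by ring
          _ ≤ _ := by gcongr
      calc (1 + ε) * V t * S2 (T u) * ((y : ℝ) - u) + K * ((t : ℝ) + 1) ^ B * (V t)⁻¹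
          ≤ (1 + 6 * ε) * ((c * σ / 2) * V t * lam ^ 2) * ((2 - ε) * ll) +
            ε * ((c * σ / 2) * V t * lam ^ 2) * ((2 - ε) * ll) :=
            add_le_add (hA1.trans hB1) (hA2.trans hB2)
        _ = _ := by ring
    calc ∑ j ∈ Ioc 0 u, (if Rg (T j) j ∧ Rg t (m - j) then q T j else 0) +
          ∑ j ∈ Ioc u y, (if Rg (T j) j ∧ Rg t (m - j) then q T j else 0)
        ≤ ε * (c * σ / 2) * V t * lam ^ 2 + (1 + 7 * ε) * ((c * σ / 2) * V t * lam ^ 2) :=
          add_le_add (hpart1.trans huV) (hpart2.trans hpart2')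
      _ = (1 + 8 * ε) * ((c * σ / 2) * V t * lam ^ 2) := by ring
      _ ≤ (1 + κ) * ((c * σ / 2) * V t * lam ^ 2) := by gcongr
      _ = _ := by ring

end

variable {Ω : Type*} [MeasurableSpace Ω] {P : Measure Ω}

/-- the number of the exceptional even numbers in `[k, 2k]` -/
noncomputable def NI (A : ℕ → Set Ω) (c : ℝ) (k : ℕ) (ω : Ω) : ℕ := {m | k ≤ m ∧ m ≤ 2 * k ∧ ω ∈ EX A c m}.ncard

omit [MeasurableSpace Ω] in
theorem NI_ge (A : ℕ → Set Ω) (c : ℝ) (k : ℕ) (ω : Ω) (E : ℕ → Set Ω) (m0 R n : ℕ) (hR : 1 ≤ R)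
    (h : ∀ i < n, ω ∈ E i → k ≤ m0 + i * R ∧ m0 + i * R ≤ 2 * k ∧ ω ∈ EX A c (m0 + i * R)) :
    S E n ω ≤ NI A c k ω := by
  classical
  have e : S E n ω = ((((range n).filter (fun i => ω ∈ E i)).image (fun i => m0 + i * R)).card : ℝ) := by
    rw [card_image_of_injective]
    · unfold S
      rw [card_filter]
      push_cast
      refine sum_congr rfl fun i _ => ?_
      by_cases h : ω ∈ E i <;> simp [h]
    · intro i j hij
      have : i * R = j * R := Nat.add_left_cancel hij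
      exact Nat.eq_of_mul_eq_mul_right hR this
  rw [e]
  unfold NI
  rw [← Set.ncard_coe_finset]
  have h1 : ((((range n).filter (fun i => ω ∈ E i)).image (fun i => m0 + i * R) : Finset ℕ) : Set ℕ).ncard ≤
      {m | k ≤ m ∧ m ≤ 2 * k ∧ ω ∈ EX A c m}.ncard := by
    refine Set.ncard_le_ncard ?_ ((Set.finite_Iic (2 * k)).subset fun _ hn => hn.2.1)
    intro m hm
    rw [mem_coe, mem_image] at hm
    obtain ⟨i, hi, rfl⟩ := hm
    rw [mem_filter, mem_range] at hi
    exact h i hi.1 hi.2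
  exact_mod_cast h1

section

variable (T : ℕ → ℕ) (hT : Monotone T) (hT2 : ∀ k, 2 ≤ T k)
  (hlog : Tendsto (fun k : ℕ => Real.log (T k) / Real.log (Real.log k)) atTop (𝓝 0))

include hT hT2 hlog in
/-- **The scale lemma.** -/
theorem scale [IsProbabilityMeasure P] (A : ℕ → Set Ω) (hA : ∀ k, MeasurableSet (A k))
    (hind : iIndepSet A P) (hP : ∀ k, P.real (A k) = q T k) (σ : ℝ) (hσ : 0 < σ)
    (hσl : Tendsto (fun k => S2 (T k)) atTop (𝓝 σ)) (c η : ℝ) (hc : 0 < c) (hη : 0 < η)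
    (hcη : c * σ / 2 + η < 1) : ∃ K0 : ℝ, 0 < K0 ∧ ∀ᶠ k : ℕ in atTop,
    ∃ G : Set Ω, P G ≤ ENNReal.ofReal (K0 * Real.log k ^ (-(3 / 2) : ℝ)) +
        ENNReal.ofReal ((k : ℝ) ^ (-(1 - c * σ / 2 - η))) ∧
      ∀ ω, ω ∉ G → (∀ n, q T n = 0 → ω ∉ A n) → (k : ℝ) ^ (1 - c * σ / 2 - η) ≤ NI A c k ω := by
  have hTl := T_o T hlog
  have hb0 : 0 < c * σ / 2 := by positivity
  set κ := η / 16 with hκ
  have hκ0 : 0 < κ := by positivity
  have hκ1 : κ ≤ 1 / 16 := by linarith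
  refine ⟨1 / (κ ^ 2 * (c * σ / 2)), by positivity, ?_⟩
  have hlpow : Tendsto (fun k : ℕ => Real.log k ^ (-(1 / 2) : ℝ)) atTop (𝓝 0) :=
    (tendsto_rpow_neg_atTop (by norm_num)).comp tlog
  filter_upwards [mass T hT hT2 hlog σ hσ hσl c κ hc hκ0, q_ev T hT hTl, T_small T hTl (κ / 2) (by positivity),
    Vinv (1 / 2) (by norm_num), tlog.eventually_ge_atTop (max 5 (4 * c)),
    (hlpow.eventually_lt_const (show (0 : ℝ) < κ / (1 + κ) by positivity)),
    yg_le c 1 hc one_pos, log_pow_small 4 16 κ hκ0, log_pow_small 1 24 κ hκ0,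
    (kpow_atTop (η / 2) (by positivity)).eventually_ge_atTop 4, eventually_ge_atTop 3, tll.eventually_ge_atTop 1,
    thr_small (8 * c) (by positivity)] with
    k hmass hq hTs hV hl hsm hy hM hk1 hk4 hk3 hll1 hthr
  have hlam5 : 5 ≤ Real.log k := (le_max_left _ _).trans hl
  have hlamc : 4 * c ≤ Real.log k := (le_max_right _ _).trans hl
  have hk0 : (0 : ℝ) < k := by exact_mod_cast (by omega : 0 < k)
  have hkR : (1 : ℝ) ≤ k := by exact_mod_cast (by omega : 1 ≤ k)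
  set lam := Real.log k with hlamdef
  obtain ⟨y, hyd⟩ : ∃ y, y = yg c k := ⟨_, rfl⟩
  rw [← hyd] at hy
  simp only [← hyd] at hmass
  obtain ⟨M, hMd⟩ : ∃ M, M = ⌈lam⌉₊ ^ 4 := ⟨_, rfl⟩
  have hceil : (⌈lam⌉₊ : ℝ) ≤ 2 * lam := by
    have := (Nat.ceil_lt_add_one (show 0 ≤ lam by linarith)).le
    linarith
  have hMle : (M : ℝ) ≤ (k : ℝ) ^ κ := by
    rw [hMd]
    push_cast
    calc (⌈lam⌉₊ : ℝ) ^ 4 ≤ (2 * lam) ^ 4 := by gcongr
      _ = 16 * lam ^ 4 := by ring
      _ ≤ κ * (k : ℝ) ^ κ := hM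
      _ ≤ 1 * (k : ℝ) ^ κ := by gcongr; linarith
      _ = _ := one_mul _
  have hMge : lam ^ 4 ≤ (M : ℝ) := by
    rw [hMd]
    push_cast
    gcongr
    exact Nat.le_ceil _
  have hlll : Real.log lam ≤ lam := Real.log_le_self (by linarith)
  have hyle3 : (y : ℝ) ≤ 2 * c * lam ^ 3 := by
    calc (y : ℝ) ≤ (1 + 1) * c * (lam ^ 2 * Real.log lam) := hy
      _ ≤ (1 + 1) * c * (lam ^ 2 * lam) := by gcongr
      _ = _ := by ring
  have hyM : y < M := by
    have h1 : 2 * c * lam ^ 3 < lam ^ 4 := by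
      have h2 : 2 * c < lam := by linarith
      have h3 : 0 < lam ^ 3 := by positivity
      calc 2 * c * lam ^ 3 < lam * lam ^ 3 := by gcongr
        _ = lam ^ 4 := by ring
    have h2 : (y : ℝ) < M := by linarith
    exact_mod_cast h2
  -- the interval
  obtain ⟨L, hLd⟩ : ∃ L, L = k / (T (2 * k) + 2) := ⟨_, rfl⟩
  have hL1 : k + (T (2 * k) + 1) * L ≤ 2 * k := by
    have h1 : L * (T (2 * k) + 2) ≤ k := by
      rw [hLd]
      exact Nat.div_mul_le_self _ _
    nlinarith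
  obtain ⟨a, ha1, ha2, ha3⟩ := const_int T hT k L hL1
  obtain ⟨t, htd⟩ : ∃ t, t = T a := ⟨_, rfl⟩
  have ht1 : T k ≤ t := by
    rw [htd]
    exact hT ha1
  have ht2 : t ≤ T (2 * k) := by
    rw [htd]
    exact hT (by omega)
  have ht0 : 2 ≤ t := (hT2 k).trans ht1
  have htl : (t : ℝ) ≤ κ / 2 * lam := by
    have : (t : ℝ) ≤ T (2 * k) := by exact_mod_cast ht2
    linarith
  have hVt : (V t)⁻¹ ≤ lam ^ (1 / 2 : ℝ) := hV t (by nlinarith)
  have hVp := V_pos t
  -- `Q`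
  obtain ⟨Q, hQd⟩ : ∃ Q, Q = primorial t := ⟨_, rfl⟩
  have hQ0 : 0 < Q := by
    rw [hQd]
    exact primorial_pos t
  have hQdvd : ∀ p ≤ t, p.Prime → p ∣ Q := by
    intro p hp hpp
    rw [hQd]
    exact hpp.dvd_primorial_iff.2 hp
  have hQle : (Q : ℝ) ≤ (k : ℝ) ^ κ := by
    have h1 : (Q : ℝ) ≤ (4 : ℝ) ^ t := by
      rw [hQd]
      exact_mod_cast primorial_le_four_pow t
    refine h1.trans ?_
    have h2 : (4 : ℝ) ≤ Real.exp 2 := by
      have h3 : (4 : ℝ) ≤ Real.exp 1 * Real.exp 1 := by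
        have := Real.add_one_le_exp 1
        nlinarith
      rwa [← Real.exp_add, one_add_one_eq_two] at h3
    calc (4 : ℝ) ^ t ≤ (Real.exp 2) ^ t := by gcongr
      _ = Real.exp (2 * t) := by rw [← Real.exp_nat_mul]; congr 1; ring
      _ ≤ Real.exp (κ * lam) := Real.exp_le_exp.2 (by linarith)
      _ = (k : ℝ) ^ κ := exp_log_pow k (by omega) κ
  obtain ⟨R, hRd⟩ : ∃ R, R = Q * M := ⟨_, rfl⟩
  have hRM : M ≤ R := by
    rw [hRd]
    exact Nat.le_mul_of_pos_left _ hQ0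
  have hyR : y < R := hyM.trans_le hRM
  have hR1 : 1 ≤ R := by omega
  have hQR : Q ∣ R := by
    rw [hRd]
    exact Dvd.intro _ rfl
  have hRle : (R : ℝ) ≤ (k : ℝ) ^ (2 * κ) := by
    rw [hRd]
    push_cast
    calc (Q : ℝ) * M ≤ (k : ℝ) ^ κ * (k : ℝ) ^ κ := by gcongr
      _ = _ := by rw [← Real.rpow_add hk0]; congr 1; ring
  -- the number of the blocks
  have hk2κ : (k : ℝ) ^ κ ≤ (k : ℝ) ^ (1 - κ) := Real.rpow_le_rpow_of_exponent_le hkR (by linarith)
  have hk1e : (1 : ℝ) ≤ (k : ℝ) ^ (1 - κ) := Real.one_le_rpow hkR (by linarith)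
  have hLge : 5 * (k : ℝ) ^ (1 - κ) ≤ L := by
    have h1 : (k : ℝ) / ((T (2 * k) + 2 : ℕ) : ℝ) < L + 1 := by
      have := Nat.lt_succ_floor ((k : ℝ) / ((T (2 * k) + 2 : ℕ) : ℝ))
      rw [Nat.floor_div_eq_div, ← hLd] at this
      push_cast at this ⊢
      exact this
    have h2 : 6 * (k : ℝ) ^ (1 - κ) ≤ (k : ℝ) / ((T (2 * k) + 2 : ℕ) : ℝ) := by
      have hpos : (0 : ℝ) < ((T (2 * k) + 2 : ℕ) : ℝ) := by positivity
      rw [le_div_iff₀ hpos]
      have h3 : ((T (2 * k) + 2 : ℕ) : ℝ) ≤ 4 * lam := by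
        push_cast
        nlinarith
      rw [pow_one] at hk1
      calc 6 * (k : ℝ) ^ (1 - κ) * ((T (2 * k) + 2 : ℕ) : ℝ) ≤ 6 * (k : ℝ) ^ (1 - κ) * (4 * lam) := by gcongr
        _ = (k : ℝ) ^ (1 - κ) * (24 * lam) := by ring
        _ ≤ (k : ℝ) ^ (1 - κ) * (κ * (k : ℝ) ^ κ) := by gcongr
        _ ≤ (k : ℝ) ^ (1 - κ) * (1 * (k : ℝ) ^ κ) := by gcongr; linarith
        _ = k := by
          rw [one_mul, ← Real.rpow_add hk0]
          simp
    linarith
  have hQz : Q + 2 ≤ L := by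
    have : (Q : ℝ) + 2 ≤ L := by linarith
    exact_mod_cast this
  obtain ⟨n, hnd⟩ : ∃ n, n = (L - (Q + 2)) / R := ⟨_, rfl⟩
  have hnR : n * R ≤ L - (Q + 2) := by
    rw [hnd]
    exact Nat.div_mul_le_self _ _
  have hnge : (k : ℝ) ^ (1 - 3 * κ) ≤ n := by
    have h1 : ((L - (Q + 2) : ℕ) : ℝ) / R < n + 1 := by
      have := Nat.lt_succ_floor (((L - (Q + 2) : ℕ) : ℝ) / (R : ℝ))
      rw [Nat.floor_div_eq_div, ← hnd] at this
      rwa [Nat.cast_succ] at this
    have h2 : 2 * (k : ℝ) ^ (1 - κ) ≤ ((L - (Q + 2) : ℕ) : ℝ) := by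
      rw [Nat.cast_sub hQz]
      push_cast
      linarith
    have h3 : 2 * (k : ℝ) ^ (1 - 3 * κ) ≤ ((L - (Q + 2) : ℕ) : ℝ) / R := by
      have hR0 : (0 : ℝ) < R := by exact_mod_cast hR1
      rw [le_div_iff₀ hR0]
      refine le_trans ?_ h2
      calc 2 * (k : ℝ) ^ (1 - 3 * κ) * R ≤ 2 * (k : ℝ) ^ (1 - 3 * κ) * (k : ℝ) ^ (2 * κ) := by gcongr
        _ = 2 * (k : ℝ) ^ (1 - κ) := by
          rw [mul_assoc, ← Real.rpow_add hk0]
          congr 2
          ring
    have h4 : (1 : ℝ) ≤ (k : ℝ) ^ (1 - 3 * κ) := Real.one_le_rpow hkR (by linarith)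
    linarith
  have hn1 : 1 ≤ n := by
    have h4 : (1 : ℝ) ≤ (k : ℝ) ^ (1 - 3 * κ) := Real.one_le_rpow hkR (by linarith)
    have : (1 : ℝ) ≤ n := h4.trans hnge
    exact_mod_cast this
  -- the start
  obtain ⟨u, hud⟩ : ∃ u, u = Q * (a / Q + 1) := ⟨_, rfl⟩
  have hu1 : a < u := by
    rw [hud]
    exact Nat.lt_mul_div_succ a hQ0
  have hu2 : u ≤ a + Q := by
    have := Nat.mul_div_le a Q
    rw [hud, mul_add, mul_one]
    omega
  have huQ : Q ∣ u := by
    rw [hud]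
    exact Dvd.intro _ rfl
  obtain ⟨m0, hm0d⟩ : ∃ m0, m0 = u + R + 2 := ⟨_, rfl⟩
  have hmi : ∀ i < n, m0 + i * R ≤ a + L := by
    intro i hi
    have hi1 : (i + 1) * R ≤ n * R := Nat.mul_le_mul_right _ hi
    have : (i + 1) * R = i * R + R := by ring
    omega
  have hmi2 : ∀ i, a + y < m0 + i * R := by
    intro i
    omega
  have hev : ∀ i, Even (m0 + i * R) := by
    intro i
    have h2Q : 2 ∣ Q := hQdvd 2 ht0 Nat.prime_two
    have h2R : 2 ∣ R := h2Q.trans hQR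
    have h2u : 2 ∣ u := h2Q.trans huQ
    rw [even_iff_two_dvd, hm0d]
    exact ((h2u.add h2R).add (dvd_refl 2)).add (h2R.mul_left i)
  have hnd0 : ∀ p ≤ t, p.Prime → p ≠ 2 → ¬ p ∣ m0 := by
    intro p hp hpp hp2 hdiv
    have h1 : p ∣ u + R := ((hQdvd p hp hpp).trans huQ).add ((hQdvd p hp hpp).trans hQR)
    rw [hm0d, Nat.dvd_add_right h1] at hdiv
    exact hp2 ((Nat.prime_dvd_prime_iff_eq hpp Nat.prime_two).1 hdiv)
  obtain ⟨μ, hμd⟩ : ∃ μ, μ = (1 + κ) * (c * σ / 2) * V t * lam ^ 2 := ⟨_, rfl⟩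
  have hμ0 : 0 < μ := by
    rw [hμd]
    positivity
  obtain ⟨Z, hZd⟩ : ∃ Z : Finset ℕ, Z = (Ioc 0 y).filter (fun j => Rg (T j) j ∧ Rg t (m0 - j)) := ⟨_, rfl⟩
  have hZ1 : ∀ j ∈ Z, 1 ≤ j ∧ j ≤ y := by
    intro j hj
    rw [hZd, mem_filter, mem_Ioc] at hj
    omega
  have hZμ : ∑ j ∈ Z, P.real (A j) ≤ μ := by
    have h1 := hmass t m0 ht1 ht2 (by omega) (by simpa using hev 0) hnd0
    rw [hZd, sum_filter, hμd]
    simp only [hP]
    exact h1
  obtain ⟨θ, hθd⟩ : ∃ θ, θ = Real.exp (-((1 + κ) ^ 3 * (c * σ / 2) * lam)) := ⟨_, rfl⟩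
  have hθ0 : 0 < θ := by
    rw [hθd]
    exact Real.exp_pos _
  have h2y : 2 * y < m0 := by
    have h1 : 4 * (y : ℝ) ≤ 2 * k := by
      have h2 : (y : ℝ) ≤ 2 * c * (lam ^ 2 * Real.log lam) := by linarith
      unfold thr at hthr
      rw [← hlamdef] at hthr
      linarith
    have h2 : 4 * y ≤ 2 * k := by exact_mod_cast h1
    have := hmi2 0
    omega
  obtain ⟨G, hG1, hG2⟩ := cond (P := P) A hA hind Z y m0 R n ⌊(1 + κ) * μ⌋₊ hZ1 hyR h2y θ μ κ hθ0 hn1 hκ0 hμ0 hZμ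
    (Nat.lt_floor_add_one _).le (by
    intro s hs hcard i hi
    have hle : ∀ j ∈ s, j ≤ m0 + i * R := by
      intro j hj
      have h1 := hZ1 j (hs hj)
      have h2 := hmi2 i
      omega
    rw [real_H A hA hind s _ hle, hθd]
    simp only [hP]
    have hx : ∀ j ∈ s, q T (m0 + i * R - j) ≤ (V t)⁻¹ / lam ∧ q T (m0 + i * R - j) ≤ κ / (1 + κ) := by
      intro j hj
      have h1 := hZ1 j (hs hj)
      have h2 := hmi2 i
      have h3 := hmi i hi
      have h4 : a ≤ m0 + i * R - j := by omega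
      have h5 : m0 + i * R - j ≤ a + L := by omega
      have h6 := hT h4
      have h7 := hT h5
      have h8 : T (m0 + i * R - j) = t := by omega
      constructor
      · refine (q_le T _).trans ?_
        rw [h8]
        have h9 : lam ≤ Real.log ((m0 + i * R - j : ℕ) : ℝ) :=
          Real.log_le_log hk0 (by exact_mod_cast (by omega : k ≤ m0 + i * R - j))
        gcongr
      · exact ((hq _ (by omega) (by omega)).2).trans hsm.le
    calc Real.exp (-((1 + κ) ^ 3 * (c * σ / 2) * lam)) ≤ Real.exp (-((1 + κ) * ((s.card : ℝ) * ((V t)⁻¹ / lam)))) := by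
          apply Real.exp_le_exp.2
          have h1 : (s.card : ℝ) ≤ (1 + κ) * μ := by
            have h2 : (s.card : ℝ) ≤ ⌊(1 + κ) * μ⌋₊ := by exact_mod_cast hcard
            exact h2.trans (Nat.floor_le (by positivity))
          have h2 : (1 + κ) * ((s.card : ℝ) * ((V t)⁻¹ / lam)) ≤ (1 + κ) * (((1 + κ) * μ) * ((V t)⁻¹ / lam)) := by
            gcongr
          have h3 : (1 + κ) * (((1 + κ) * μ) * ((V t)⁻¹ / lam)) = (1 + κ) ^ 3 * (c * σ / 2) * lam := by
            rw [hμd]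
            field_simp
          linarith
      _ = ∏ j ∈ s, Real.exp (-((1 + κ) * ((V t)⁻¹ / lam))) := by
          rw [prod_const, ← Real.exp_nat_mul]
          congr 1
          ring
      _ ≤ ∏ j ∈ s, (1 - q T (m0 + i * R - j)) := by
          refine prod_le_prod (fun j _ => (Real.exp_pos _).le) fun j hj => ?_
          have h1 := hx j hj
          refine le_trans ?_ (one_sub_ge κ _ hκ0 (q_nonneg T _) h1.2)
          apply Real.exp_le_exp.2
          have : (1 + κ) * q T (m0 + i * R - j) ≤ (1 + κ) * ((V t)⁻¹ / lam) := by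
            gcongr
            exact h1.1
          linarith)
  -- the expected number
  have hθ1 : (k : ℝ) ^ (-(c * σ / 2 + η / 4)) ≤ θ := by
    rw [hθd, ← exp_log_pow k (by omega)]
    gcongr
    have h1 : (1 + κ) ^ 3 * (c * σ / 2) ≤ c * σ / 2 + η / 4 := by
      have h2 : (1 + κ) ^ 3 ≤ 1 + 4 * κ := by
        have h8 : κ ^ 2 ≤ 1 / 16 * κ := by nlinarith
        have h9 : κ ^ 3 ≤ 1 / 256 * κ := by
          calc κ ^ 3 = κ ^ 2 * κ := by ring
            _ ≤ (1 / 16 * κ) * (1 / 16) := by gcongr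
            _ = _ := by ring
        have h10 : (1 + κ) ^ 3 = 1 + 3 * κ + 3 * κ ^ 2 + κ ^ 3 := by ring
        linarith
      calc (1 + κ) ^ 3 * (c * σ / 2) ≤ (1 + 4 * κ) * (c * σ / 2) := by gcongr
        _ = c * σ / 2 + 4 * κ * (c * σ / 2) := by ring
        _ ≤ c * σ / 2 + 4 * κ * 1 := by
          gcongr
          linarith
        _ = c * σ / 2 + η / 4 := by
          rw [hκ]
          ring
    have h3 := mul_le_mul_of_nonneg_right h1 (show 0 ≤ lam by linarith)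
    linarith
  have hnθ : 4 * (k : ℝ) ^ (1 - c * σ / 2 - η) ≤ n * θ := by
    calc 4 * (k : ℝ) ^ (1 - c * σ / 2 - η) ≤ (k : ℝ) ^ (η / 2) * (k : ℝ) ^ (1 - c * σ / 2 - η) := by
          gcongr
      _ = (k : ℝ) ^ (1 - c * σ / 2 - η / 2) := by
          rw [← Real.rpow_add hk0]
          congr 1
          ring
      _ ≤ (k : ℝ) ^ ((1 - 3 * κ) + -(c * σ / 2 + η / 4)) := by
          refine Real.rpow_le_rpow_of_exponent_le hkR ?_
          rw [hκ]
          linarith
      _ = (k : ℝ) ^ (1 - 3 * κ) * (k : ℝ) ^ (-(c * σ / 2 + η / 4)) := Real.rpow_add hk0 _ _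
      _ ≤ n * θ := by gcongr
  have hke : (0 : ℝ) < (k : ℝ) ^ (1 - c * σ / 2 - η) := by positivity
  refine ⟨G, hG1.trans (add_le_add (ENNReal.ofReal_le_ofReal ?_) (ENNReal.ofReal_le_ofReal ?_)), fun ω hω hnull => ?_⟩
  · -- the first error
    have h1 : (c * σ / 2) * lam ^ (3 / 2 : ℝ) ≤ μ := by
      rw [hμd]
      have e2 : (lam ^ (1 / 2 : ℝ))⁻¹ ≤ V t := by
        have := inv_anti₀ (inv_pos.2 hVp) hVt
        rwa [inv_inv] at this
      have e1 : lam ^ (3 / 2 : ℝ) = (lam ^ (1 / 2 : ℝ))⁻¹ * lam ^ 2 := by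
        rw [← Real.rpow_neg (by linarith), ← Real.rpow_natCast lam 2, ← Real.rpow_add (by linarith)]
        norm_num
      rw [e1]
      calc c * σ / 2 * ((lam ^ (1 / 2 : ℝ))⁻¹ * lam ^ 2) ≤ c * σ / 2 * (V t * lam ^ 2) := by gcongr
        _ = 1 * ((c * σ / 2) * V t * lam ^ 2) := by ring
        _ ≤ (1 + κ) * ((c * σ / 2) * V t * lam ^ 2) := by
          gcongr
          linarith
        _ = _ := by ring
    rw [Real.rpow_neg (by linarith)]
    have h2 : 0 < lam ^ (3 / 2 : ℝ) := by positivity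
    calc 1 / (κ ^ 2 * μ) ≤ 1 / (κ ^ 2 * ((c * σ / 2) * lam ^ (3 / 2 : ℝ))) := by gcongr
      _ = _ := by field_simp
  · rw [Real.rpow_neg hk0.le, div_le_iff₀ (by linarith)]
    calc (4 : ℝ) = ((k : ℝ) ^ (1 - c * σ / 2 - η))⁻¹ * (4 * (k : ℝ) ^ (1 - c * σ / 2 - η)) := by field_simp
      _ ≤ _ := by gcongr
  · obtain ⟨s, hs, hs1, hs2⟩ := hG2 ω hω
    have h1 := NI_ge A c k ω (fun i => H A s (m0 + i * R)) m0 R n hR1 (by
      intro i hi hH
      have h2 := hmi2 i
      have h3 := hmi i hi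
      refine ⟨by omega, by omega, hev i, fun p hp hpc hpA => ?_⟩
      have hpy : p ≤ y := by
        rw [hyd]
        refine Nat.le_floor (hpc.trans ?_)
        have h4 : 1 ≤ Real.log ((m0 + i * R : ℕ) : ℝ) := by
          have : lam ≤ Real.log ((m0 + i * R : ℕ) : ℝ) :=
            Real.log_le_log hk0 (by exact_mod_cast (by omega : k ≤ m0 + i * R))
          linarith
        exact mul_le_mul_of_nonneg_left (thr_mono _ _ h4 (by omega) (by omega)) hc.le
      by_cases hpZ : p ∈ Z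
      · have h4 := (hs1 p hpZ).1 hpA
        unfold H at hH
        simp only [Set.mem_iInter, Set.mem_compl_iff] at hH
        exact hH p h4
      · by_cases hp0 : 3 ≤ p ∧ Rg (T p) p
        · have h4 : ¬ Rg t (m0 - p) := by
            intro h5
            apply hpZ
            rw [hZd, mem_filter, mem_Ioc]
            exact ⟨⟨by omega, hpy⟩, hp0.2, h5⟩
          have h6 : T (m0 + i * R - p) = t := by
            have h4 : a ≤ m0 + i * R - p := by omega
            have h5 : m0 + i * R - p ≤ a + L := by omega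
            have h6 := hT h4
            have h7 := hT h5
            omega
          have h7 : ¬ Rg t (m0 + i * R - p) := by
            intro h8
            apply h4
            have e : m0 + i * R - p = i * R + (m0 - p) := by
              have := hmi2 0
              omega
            rw [e, Rg_period t (m0 - p) (i * R)] at h8
            · exact h8
            · rw [← hQd]
              exact hQR.mul_left i
          refine hnull _ ?_
          unfold q
          rw [h6, if_neg (fun h8 => h7 h8.2)]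
        · exfalso
          refine hnull p ?_ hpA
          unfold q
          rw [if_neg hp0])
    have h2 : (k : ℝ) ^ (1 - c * σ / 2 - η) ≤ n * θ / 2 := by linarith
    exact (h2.trans hs2).trans h1

end

end Pool.Agent.T2H32.GB
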