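import Pool.Agent.T2H32.GB.Sing

set_option autoImplicit false

/-! # Probabilities: pairs `k, m - k`, and conditioning on the small random primes -/

open MeasureTheory ProbabilityTheory Filter Topology Finset
open scoped ENNReal
open Pool.Agent.T2H32.CM (S mS memLp_S integral_S var_S_le)
open Pool.Agent.T2H32.GM (cheb_low)

namespace Pool.Agent.T2H32.GB

variable {Ω : Type*} [MeasurableSpace Ω] {P : Measure Ω}

/-- no `k` in `(0, y]` with `k` and `m - k` random primes -/
def F (A : ℕ → Set Ω) (m y : ℕ) : Set Ω := ⋂ k ∈ Ioc 0 y, (A k ∩ A (m - k))ᶜ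

theorem measurable_F (A : ℕ → Set Ω) (hA : ∀ k, MeasurableSet (A k)) (m y : ℕ) : MeasurableSet (F A m y) :=
  Finset.measurableSet_biInter _ fun j _ => ((hA j).inter (hA _)).compl

/-- a measurable set for the events with indices in `s` -/
theorem gen_mem (A : ℕ → Set Ω) (s : Set ℕ) (j : ℕ) (hj : j ∈ s) :
    @MeasurableSet _ (⨆ i ∈ s, MeasurableSpace.generateFrom {A i}) (A j) := by
  have h1 : MeasurableSpace.generateFrom {A j} ≤ ⨆ i ∈ s, MeasurableSpace.generateFrom {A i} :=
    le_iSup₂ (f := fun i (_ : i ∈ s) => MeasurableSpace.generateFrom {A i}) j hj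
  exact h1 _ (MeasurableSpace.measurableSet_generateFrom (Set.mem_singleton (A j)))

theorem split [IsProbabilityMeasure P] (A : ℕ → Set Ω) (hA : ∀ k, MeasurableSet (A k))
    (hind : iIndepSet A P) (s t : Set ℕ) (hst : Disjoint s t) (X Y : Set Ω)
    (hX : @MeasurableSet _ (⨆ i ∈ s, MeasurableSpace.generateFrom {A i}) X)
    (hY : @MeasurableSet _ (⨆ i ∈ t, MeasurableSpace.generateFrom {A i}) Y) :
    P.real (X ∩ Y) = P.real X * P.real Y := by
  have h1 := indep_iSup_of_disjoint (m := fun i => MeasurableSpace.generateFrom {A i}) (μ := P)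
    (fun i => MeasurableSpace.generateFrom_le (by rintro _ rfl; exact hA i)) hind hst
  have h2 := (Indep_iff _ _ P).1 h1 X Y hX hY
  rw [measureReal_def, h2, ENNReal.toReal_mul]
  rfl

theorem pair_indep [IsProbabilityMeasure P] (A : ℕ → Set Ω) (hA : ∀ k, MeasurableSet (A k))
    (hind : iIndepSet A P) (i j : ℕ) (hij : i ≠ j) : P.real (A i ∩ A j) = P.real (A i) * P.real (A j) := by
  refine split A hA hind {i} {j} (by simpa using hij) _ _ (gen_mem A _ i rfl) (gen_mem A _ j rfl)

theorem real_F [IsProbabilityMeasure P] (A : ℕ → Set Ω) (hA : ∀ k, MeasurableSet (A k))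
    (hind : iIndepSet A P) (m : ℕ) : ∀ y : ℕ, 2 * y < m →
    P.real (F A m y) = ∏ k ∈ Ioc 0 y, (1 - P.real (A k) * P.real (A (m - k))) := by
  intro y
  induction y with
  | zero =>
    intro _
    unfold F
    simp
  | succ y ih =>
    intro hy
    have e1 : Ioc 0 (y + 1) = insert (y + 1) (Ioc 0 y) := by
      ext j
      simp only [mem_Ioc, mem_insert]
      omega
    have e2 : F A m (y + 1) = F A m y ∩ (A (y + 1) ∩ A (m - (y + 1)))ᶜ := by
      unfold F
      rw [e1]
      ext ω
      simp only [Set.mem_iInter, mem_insert, Set.mem_inter_iff]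
      constructor
      · intro h
        exact ⟨fun i hi => h i (Or.inr hi), h _ (Or.inl rfl)⟩
      · rintro ⟨h1, h2⟩ i (rfl | hi)
        · exact h2
        · exact h1 i hi
    have h1 := split A hA hind {j | j ≤ y ∨ m - y ≤ j} {j | j = y + 1 ∨ j = m - (y + 1)} (by
      rw [Set.disjoint_left]
      intro j (h1 : j ≤ y ∨ m - y ≤ j) (h2 : j = y + 1 ∨ j = m - (y + 1))
      omega) (F A m y) ((A (y + 1) ∩ A (m - (y + 1)))ᶜ) ?_ ?_
    · rw [e2, h1, ih (by omega), e1, prod_insert (by simp), mul_comm]
      congr 1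
      rw [probReal_compl_eq_one_sub ((hA _).inter (hA _)), pair_indep A hA hind _ _ (by omega)]
    · unfold F
      refine Finset.measurableSet_biInter _ fun j hj => ?_
      rw [mem_Ioc] at hj
      refine MeasurableSet.compl (MeasurableSet.inter (gen_mem A _ _ ?_) (gen_mem A _ _ ?_))
      · exact Or.inl hj.2
      · exact Or.inr (by omega)
    · refine MeasurableSet.compl (MeasurableSet.inter (gen_mem A _ _ ?_) (gen_mem A _ _ ?_))
      · exact Or.inl rfl
      · exact Or.inr rfl

/-- no `m - j`, `j` in `s`, is a random prime -/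
def H (A : ℕ → Set Ω) (s : Finset ℕ) (m : ℕ) : Set Ω := ⋂ j ∈ s, (A (m - j))ᶜ

theorem measurable_H (A : ℕ → Set Ω) (hA : ∀ k, MeasurableSet (A k)) (s : Finset ℕ) (m : ℕ) :
    MeasurableSet (H A s m) := Finset.measurableSet_biInter _ fun j _ => (hA _).compl

theorem gen_H (A : ℕ → Set Ω) (s : Finset ℕ) (m : ℕ) (t : Set ℕ) (h : ∀ j ∈ s, m - j ∈ t) :
    @MeasurableSet _ (⨆ i ∈ t, MeasurableSpace.generateFrom {A i}) (H A s m) :=
  Finset.measurableSet_biInter _ fun j hj => (gen_mem A t _ (h j hj)).compl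

theorem real_H [IsProbabilityMeasure P] (A : ℕ → Set Ω) (hA : ∀ k, MeasurableSet (A k))
    (hind : iIndepSet A P) (s : Finset ℕ) (m : ℕ) (hs : ∀ j ∈ s, j ≤ m) :
    P.real (H A s m) = ∏ j ∈ s, (1 - P.real (A (m - j))) := by
  classical
  have hinj : Set.InjOn (fun j => m - j) (s : Set ℕ) := by
    intro a ha b hb hab
    have := hs a ha
    have := hs b hb
    simp only at hab
    omega
  have h := (iIndepSet_iff A P).1 hind (s.image (fun j => m - j)) (f := fun j => (A j)ᶜ)
    (fun i _ => (MeasurableSpace.measurableSet_generateFrom (Set.mem_singleton (A i))).compl)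
  have e : H A s m = ⋂ i ∈ s.image (fun j => m - j), (A i)ᶜ := by
    unfold H
    ext ω
    simp only [Set.mem_iInter, mem_image, forall_exists_index, and_imp]
    constructor
    · rintro h _ j hj rfl
      exact h j hj
    · intro h j hj
      exact h _ j hj rfl
  rw [e, measureReal_def, h, ENNReal.toReal_prod, prod_image hinj]
  refine prod_congr rfl fun j _ => ?_
  rw [← measureReal_def, probReal_compl_eq_one_sub (hA _)]

/-- the random primes in `Z` are exactly those in `s` -/
def Sg (A : ℕ → Set Ω) (Z s : Finset ℕ) : Set Ω := {ω | ∀ j ∈ Z, (ω ∈ A j ↔ j ∈ s)}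

theorem gen_Sg (A : ℕ → Set Ω) (Z s : Finset ℕ) (t : Set ℕ) (h : ∀ j ∈ Z, j ∈ t) :
    @MeasurableSet _ (⨆ i ∈ t, MeasurableSpace.generateFrom {A i}) (Sg A Z s) := by
  have e : Sg A Z s = ⋂ j ∈ Z, {ω | ω ∈ A j ↔ j ∈ s} := by
    unfold Sg
    ext ω
    simp
  rw [e]
  refine Finset.measurableSet_biInter _ fun j hj => ?_
  by_cases hjs : j ∈ s
  · have : {ω | ω ∈ A j ↔ j ∈ s} = A j := by
      ext ω
      simp [hjs]
    rw [this]
    exact gen_mem A t j (h j hj)
  · have : {ω | ω ∈ A j ↔ j ∈ s} = (A j)ᶜ := by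
      ext ω
      simp [hjs]
    rw [this]
    exact (gen_mem A t j (h j hj)).compl

theorem measurable_Sg (A : ℕ → Set Ω) (hA : ∀ k, MeasurableSet (A k)) (Z s : Finset ℕ) :
    MeasurableSet (Sg A Z s) := by
  have h1 := gen_Sg A Z s Set.univ (fun _ _ => Set.mem_univ _)
  have h2 : (⨆ i ∈ (Set.univ : Set ℕ), MeasurableSpace.generateFrom {A i}) ≤ ‹MeasurableSpace Ω› :=
    iSup₂_le fun i _ => MeasurableSpace.generateFrom_le (by rintro _ rfl; exact hA i)
  exact h2 _ h1

/-- **The conditional argument.** The spaced numbers `m0 + i R`, `i < n`; `Z` is a set of small numbers. -/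
theorem cond [IsProbabilityMeasure P] (A : ℕ → Set Ω) (hA : ∀ k, MeasurableSet (A k))
    (hind : iIndepSet A P) (Z : Finset ℕ) (y m0 R n n0 : ℕ) (hZ : ∀ j ∈ Z, 1 ≤ j ∧ j ≤ y) (hR : y < R)
    (hm0 : 2 * y < m0) (θ μ κ : ℝ) (hθ : 0 < θ) (hn : 1 ≤ n) (hκ : 0 < κ) (hμ : 0 < μ)
    (hμZ : ∑ j ∈ Z, P.real (A j) ≤ μ) (hn0 : (1 + κ) * μ ≤ n0 + 1)
    (hP : ∀ s ⊆ Z, s.card ≤ n0 → ∀ i < n, θ ≤ P.real (H A s (m0 + i * R))) :
    ∃ G : Set Ω, P G ≤ ENNReal.ofReal (1 / (κ ^ 2 * μ)) + ENNReal.ofReal (4 / (n * θ)) ∧ ∀ ω, ω ∉ G →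
      ∃ s ⊆ Z, (∀ j ∈ Z, (ω ∈ A j ↔ j ∈ s)) ∧
        n * θ / 2 ≤ S (fun i => H A s (m0 + i * R)) n ω := by
  classical
  have hn' : (0 : ℝ) < n := by exact_mod_cast hn
  -- the number of the small random primes
  set E : ℕ → Set Ω := fun j => if j ∈ Z then A j else ∅ with hE
  have hEm : ∀ j, MeasurableSet (E j) := by
    intro j
    simp only [hE]
    split_ifs
    · exact hA j
    · exact MeasurableSet.empty
  have hEneg : ∀ k l, k < l → P.real (E k ∩ E l) ≤ P.real (E k) * P.real (E l) := by
    intro k l hkl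
    simp only [hE]
    split_ifs
    · exact (pair_indep A hA hind k l hkl.ne).le
    · simp
    · simp
    · simp
  have hmS : mS P E (y + 1) = ∑ j ∈ Z, P.real (A j) := by
    unfold mS
    have h1 : ∑ k ∈ range (y + 1), P.real (E k) = ∑ k ∈ (range (y + 1)).filter (· ∈ Z), P.real (A k) := by
      rw [sum_filter]
      refine sum_congr rfl fun k _ => ?_
      simp only [hE]
      split_ifs <;> simp
    rw [h1]
    refine sum_congr ?_ fun _ _ => rfl
    ext j
    rw [mem_filter, mem_range]
    constructor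
    · exact fun h => h.2
    · exact fun h => ⟨by have := hZ j h; omega, h⟩
  set G1 : Set Ω := {ω | κ * μ ≤ |S E (y + 1) ω - mS P E (y + 1)|} with hG1
  have hG1P : P G1 ≤ ENNReal.ofReal (1 / (κ ^ 2 * μ)) := by
    have h1 := meas_ge_le_variance_div_sq (memLp_S (P := P) E hEm (y + 1)) (show 0 < κ * μ by positivity)
    rw [integral_S E hEm] at h1
    refine h1.trans (ENNReal.ofReal_le_ofReal ?_)
    have h2 := var_S_le (P := P) E hEm hEneg (y + 1)
    calc Var[S E (y + 1); P] / (κ * μ) ^ 2 ≤ μ / (κ * μ) ^ 2 := by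
          gcongr
          rw [hmS] at h2
          exact h2.trans hμZ
      _ = 1 / (κ ^ 2 * μ) := by
        field_simp
  -- the blocks
  set Gs : Finset ℕ → Set Ω := fun s => {ω | S (fun i => H A s (m0 + i * R)) n ω < n * θ / 2} with hGs
  have hGsP : ∀ s ⊆ Z, s.card ≤ n0 → P (Gs s) ≤ ENNReal.ofReal (4 / (n * θ)) := by
    intro s hs hc
    have hm : n * θ ≤ mS P (fun i => H A s (m0 + i * R)) n := by
      unfold mS
      have : ∑ k ∈ range n, θ ≤ ∑ k ∈ range n, P.real (H A s (m0 + k * R)) :=
        sum_le_sum fun i hi => hP s hs hc i (mem_range.1 hi)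
      rwa [sum_const, card_range, nsmul_eq_mul] at this
    have hm0' : 0 < (n : ℝ) * θ := by positivity
    have h1 := cheb_low (P := P) (fun i => H A s (m0 + i * R)) (fun i => measurable_H A hA _ _) (fun k l hkl => by
      refine (split A hA hind {j | j ≤ m0 + k * R} {j | m0 + k * R < j} ?_ _ _ ?_ ?_).le
      · rw [Set.disjoint_left]
        intro j (h1 : j ≤ m0 + k * R) (h2 : m0 + k * R < j)
        omega
      · refine gen_H A s _ _ fun j hj => ?_
        show m0 + k * R - j ≤ m0 + k * R
        omega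
      · refine gen_H A s _ _ fun j hj => ?_
        show m0 + k * R < m0 + l * R - j
        have h3 := hZ j (hs hj)
        have h4 : (k + 1) * R ≤ l * R := Nat.mul_le_mul_right _ hkl
        have h5 : (k + 1) * R = k * R + R := by ring
        omega) n (hm0'.trans_le hm)
    refine (measure_mono ?_).trans (h1.trans (ENNReal.ofReal_le_ofReal ?_))
    · intro ω hω
      have hω' : S (fun i => H A s (m0 + i * R)) n ω < n * θ / 2 := hω
      show S (fun i => H A s (m0 + i * R)) n ω < mS P (fun i => H A s (m0 + i * R)) n / 2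
      linarith
    · gcongr
  set good := Z.powerset.filter (fun s => s.card ≤ n0) with hgood
  set G2 : Set Ω := ⋃ s ∈ good, Sg A Z s ∩ Gs s with hG2
  have hmeasG : ∀ s, MeasurableSet (Gs s) := by
    intro s
    have hms : Measurable (S (fun i => H A s (m0 + i * R)) n) := by
      unfold S
      exact Finset.measurable_sum _ fun i _ => measurable_const.indicator (measurable_H A hA _ _)
    exact hms measurableSet_Iio
  have hG2P : P G2 ≤ ENNReal.ofReal (4 / (n * θ)) := by
    have h1 : ∀ s ∈ good, P (Sg A Z s ∩ Gs s) ≤ P (Sg A Z s) * ENNReal.ofReal (4 / (n * θ)) := by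
      intro s hs
      rw [hgood, mem_filter, mem_powerset] at hs
      have h2 : P (Sg A Z s ∩ Gs s) = P (Sg A Z s) * P (Gs s) := by
        have h3 := indep_iSup_of_disjoint (m := fun i => MeasurableSpace.generateFrom {A i}) (μ := P)
          (fun i => MeasurableSpace.generateFrom_le (by rintro _ rfl; exact hA i)) hind
          (S := {j | j ≤ y}) (T := {j | y < j}) (by
            rw [Set.disjoint_left]
            intro j (h1 : j ≤ y) (h2 : y < j)
            omega)
        refine (Indep_iff _ _ P).1 h3 _ _ (gen_Sg A Z s _ fun j hj => (hZ j hj).2) ?_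
        have hms : @Measurable Ω ℝ (⨆ i ∈ {j | y < j}, MeasurableSpace.generateFrom {A i}) _
            (S (fun i => H A s (m0 + i * R)) n) := by
          unfold S
          refine @Finset.measurable_sum _ _ _ (_) _ _ _ _ _ fun i _ => ?_
          refine Measurable.indicator measurable_const ?_
          refine gen_H A s _ _ fun j hj => ?_
          show y < m0 + i * R - j
          have h3 := hZ j (hs.1 hj)
          omega
        exact hms measurableSet_Iio
      rw [h2]
      gcongr
      exact hGsP s hs.1 hs.2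
    calc P G2 ≤ ∑ s ∈ good, P (Sg A Z s ∩ Gs s) := measure_biUnion_finset_le _ _
      _ ≤ ∑ s ∈ good, P (Sg A Z s) * ENNReal.ofReal (4 / (n * θ)) := sum_le_sum h1
      _ = (∑ s ∈ good, P (Sg A Z s)) * ENNReal.ofReal (4 / (n * θ)) := by rw [sum_mul]
      _ ≤ 1 * ENNReal.ofReal (4 / (n * θ)) := by
        gcongr
        rw [← measure_biUnion_finset]
        · exact prob_le_one
        · intro s hs s' hs' hne
          rw [Function.onFun, Set.disjoint_left]
          intro ω h1 h2
          apply hne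
          have hs1 : s ⊆ Z := (mem_powerset.1 (mem_filter.1 hs).1)
          have hs2 : s' ⊆ Z := (mem_powerset.1 (mem_filter.1 hs').1)
          ext j
          constructor
          · intro hj
            exact (h2 j (hs1 hj)).1 ((h1 j (hs1 hj)).2 hj)
          · intro hj
            exact (h1 j (hs2 hj)).1 ((h2 j (hs2 hj)).2 hj)
        · intro s _
          exact measurable_Sg A hA Z s
      _ = _ := one_mul _
  refine ⟨G1 ∪ G2, (measure_union_le _ _).trans (add_le_add hG1P hG2P), fun ω hω => ?_⟩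
  have hω1 : ω ∉ G1 := fun h => hω (Or.inl h)
  have hω2 : ω ∉ G2 := fun h => hω (Or.inr h)
  refine ⟨Z.filter (fun j => ω ∈ A j), filter_subset _ _, fun j hj => ?_, ?_⟩
  · rw [mem_filter]
    exact ⟨fun h => ⟨hj, h⟩, fun h => h.2⟩
  · set s := Z.filter (fun j => ω ∈ A j) with hs
    have hcard : s.card ≤ n0 := by
      have h1 : S E (y + 1) ω = s.card := by
        unfold S
        rw [hs, card_filter, Nat.cast_sum]
        have h2 : ∑ k ∈ range (y + 1), (E k).indicator (fun _ => (1 : ℝ)) ω =
            ∑ k ∈ (range (y + 1)).filter (· ∈ Z), (if ω ∈ A k then (1 : ℝ) else 0) := by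
          rw [sum_filter]
          refine sum_congr rfl fun k _ => ?_
          simp only [hE]
          split_ifs with h3 h4 <;> simp [h3, *]
        rw [h2]
        have h3 : (range (y + 1)).filter (· ∈ Z) = Z := by
          ext j
          rw [mem_filter, mem_range]
          constructor
          · exact fun h => h.2
          · exact fun h => ⟨by have := hZ j h; omega, h⟩
        rw [h3]
        push_cast
        rfl
      have h2 : |S E (y + 1) ω - mS P E (y + 1)| < κ * μ := not_le.1 hω1
      rw [abs_lt, h1, hmS] at h2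
      have h3 : (s.card : ℝ) < n0 + 1 := by linarith [h2.2]
      have h4 : s.card < n0 + 1 := by exact_mod_cast h3
      omega
    by_contra hcon
    push Not at hcon
    refine hω2 ?_
    rw [hG2]
    refine Set.mem_biUnion (x := s) ?_ ⟨?_, hcon⟩
    · show s ∈ good
      rw [hgood, mem_filter, mem_powerset]
      exact ⟨filter_subset _ _, hcard⟩
    · intro j hj
      rw [hs, mem_filter]
      exact ⟨fun h => ⟨hj, h⟩, fun h => h.2⟩

end Pool.Agent.T2H32.GB
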