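import Pool.Agent.T2H32.GB.FLg

set_option autoImplicit false

/-! # Local factors, and sums over short intervals -/

open Finset Filter Topology
open Pool.Agent.T2H32.BF (V V_pos V_anti V_ratio mertens)
open Pool.Agent.T2H32.GM (Rg Vinv_anti)

namespace Pool.Agent.T2H32.GB

/-- the primes up to `t` -/
def PP (t : ℕ) : Finset ℕ := (range (t + 1)).filter Nat.Prime

theorem mem_PP (t p : ℕ) : p ∈ PP t ↔ p ≤ t ∧ p.Prime := by
  unfold PP
  rw [mem_filter, mem_range, Nat.lt_succ_iff]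

/-- the factor at `p` -/
noncomputable def fc (p : ℕ) : ℝ := if p = 2 then 2 else 1 - 1 / ((p : ℝ) - 1) ^ 2

/-- the least truncated singular series -/
noncomputable def S2 (s : ℕ) : ℝ := ∏ p ∈ PP s, fc p

theorem fc_pos (p : ℕ) (hp : p.Prime) : 0 < fc p := by
  unfold fc
  split_ifs with h
  · norm_num
  · have h3 : (3 : ℝ) ≤ p := by
      have := hp.two_le
      exact_mod_cast (by omega : 3 ≤ p)
    have h1 : 1 / ((p : ℝ) - 1) ^ 2 ≤ 1 / 2 ^ 2 := by
      gcongr
      linarith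
    norm_num at h1
    have h4 : 1 / ((p : ℝ) - 1) ^ 2 = (((p : ℝ) - 1) ^ 2)⁻¹ := one_div _
    rw [h4]
    linarith

theorem fc_le_one (p : ℕ) (h : p ≠ 2) : fc p ≤ 1 := by
  unfold fc
  rw [if_neg h]
  have : 0 ≤ 1 / ((p : ℝ) - 1) ^ 2 := by positivity
  linarith

theorem S2_pos (s : ℕ) : 0 < S2 s := prod_pos fun p hp => fc_pos p ((mem_PP s p).1 hp).2

theorem S2_anti (s t : ℕ) (hs : 2 ≤ s) (hst : s ≤ t) : S2 t ≤ S2 s := by
  unfold S2
  have hsub : PP s ⊆ PP t := by
    intro p hp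
    rw [mem_PP] at hp ⊢
    exact ⟨hp.1.trans hst, hp.2⟩
  rw [← prod_sdiff hsub]
  have h1 : ∏ p ∈ PP t \ PP s, fc p ≤ 1 := by
    refine prod_le_one (fun p hp => (fc_pos p ((mem_PP t p).1 (mem_sdiff.1 hp).1).2).le) fun p hp => ?_
    refine fc_le_one p fun h => (mem_sdiff.1 hp).2 ?_
    rw [mem_PP, h]
    exact ⟨hs, Nat.prime_two⟩
  have h2 : 0 < ∏ p ∈ PP s, fc p := S2_pos s
  nlinarith

/-- the forbidden classes -/
def Om (s m : ℕ) (p : ℕ) : Finset ℕ := if p ≤ s then {0, m % p} else {m % p}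

theorem Om_sub (s m p : ℕ) (hp : p.Prime) : Om s m p ⊆ range p ∧ (Om s m p).card ≤ 2 := by
  unfold Om
  have h1 := Nat.mod_lt m hp.pos
  constructor
  · split_ifs
    · intro r hr
      rw [mem_insert, mem_singleton] at hr
      rw [mem_range]
      rcases hr with h | h
      · rw [h]; exact hp.pos
      · rw [h]; exact h1
    · intro r hr
      rw [mem_singleton] at hr
      rw [mem_range, hr]
      exact h1
  · split_ifs
    · exact (card_insert_le _ _).trans (by simp)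
    · simp

theorem Om_card_div (s m p : ℕ) (hp : p ∣ m) : (Om s m p).card = 1 := by
  unfold Om
  rw [Nat.mod_eq_zero_of_dvd hp]
  split_ifs <;> simp

theorem Om_card_ndiv (s m p : ℕ) (hps : p ≤ s) (hp : ¬ p ∣ m) : (Om s m p).card = 2 := by
  unfold Om
  rw [if_pos hps]
  refine card_pair ?_
  intro h
  exact hp (Nat.dvd_of_mod_eq_zero h.symm)

theorem Om_card_large (s m p : ℕ) (hps : s < p) : (Om s m p).card = 1 := by
  unfold Om
  rw [if_neg (by omega)]
  simp

/-- the density -/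
noncomputable def D (s t m : ℕ) : ℝ := ∏ p ∈ PP t, (1 - ((Om s m p).card : ℝ) / p)

theorem V_eq (t : ℕ) : V t = ∏ p ∈ PP t, (1 - 1 / (p : ℝ)) := rfl

theorem D_eq (s t m : ℕ) (hst : s ≤ t) : D s t m * V s = (∏ p ∈ PP s, (1 - ((Om s m p).card : ℝ) / p)) * V t := by
  have h1 := V_ratio s t hst
  have h2 := V_pos s
  have h3 : V t = V s * ∏ p ∈ (Ioc s t).filter Nat.Prime, (1 - 1 / (p : ℝ)) := by
    rw [← h1]
    field_simp
  have h4 : D s t m = (∏ p ∈ PP s, (1 - ((Om s m p).card : ℝ) / p)) *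
      ∏ p ∈ (Ioc s t).filter Nat.Prime, (1 - 1 / (p : ℝ)) := by
    unfold D
    have e : PP t = PP s ∪ (Ioc s t).filter Nat.Prime := by
      ext p
      rw [mem_union, mem_PP, mem_PP, mem_filter, mem_Ioc]
      constructor
      · rintro ⟨h5, h6⟩
        rcases le_or_gt p s with h7 | h7
        · exact Or.inl ⟨h7, h6⟩
        · exact Or.inr ⟨⟨h7, h5⟩, h6⟩
      · rintro (⟨h5, h6⟩ | ⟨⟨h5, h5'⟩, h6⟩)
        · exact ⟨h5.trans hst, h6⟩
        · exact ⟨h5', h6⟩
    rw [e, prod_union]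
    · congr 1
      refine prod_congr rfl fun p hp => ?_
      rw [mem_filter, mem_Ioc] at hp
      rw [Om_card_large s m p hp.1.1, Nat.cast_one]
    · rw [disjoint_left]
      intro p hp hp'
      rw [mem_PP] at hp
      rw [mem_filter, mem_Ioc] at hp'
      omega
  rw [h4, h3]
  ring

theorem factor_ge (s m p : ℕ) (hm : Even m) (hp : p.Prime) (hps : p ≤ s) :
    fc p * (1 - 1 / (p : ℝ)) ^ 2 ≤ 1 - ((Om s m p).card : ℝ) / p := by
  by_cases h2 : p = 2
  · subst h2
    rw [Om_card_div s m 2 hm.two_dvd]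
    unfold fc
    norm_num
  · have h3 : (3 : ℝ) ≤ p := by
      have := hp.two_le
      exact_mod_cast (by omega : 3 ≤ p)
    unfold fc
    rw [if_neg h2]
    by_cases hd : p ∣ m
    · rw [Om_card_div s m p hd, Nat.cast_one]
      have h4 : 0 < 1 - 1 / (p : ℝ) := by
        have : 1 / (p : ℝ) ≤ 1 / 3 := by gcongr
        linarith
      have h5 : 1 - 1 / (p : ℝ) ≤ 1 := by
        have : 0 ≤ 1 / (p : ℝ) := by positivity
        linarith
      have h6 : 1 - 1 / ((p : ℝ) - 1) ^ 2 ≤ 1 := by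
        have : 0 ≤ 1 / ((p : ℝ) - 1) ^ 2 := by positivity
        linarith
      nlinarith
    · rw [Om_card_ndiv s m p hps hd]
      have h4 : (p : ℝ) - 1 ≠ 0 := by linarith
      have h5 : (p : ℝ) ≠ 0 := by linarith
      refine le_of_eq ?_
      push_cast
      field_simp
      ring

theorem factor_eq (s m p : ℕ) (hm : Even m) (hp : p.Prime) (hps : p ≤ s) (hd : p ≠ 2 → ¬ p ∣ m) :
    1 - ((Om s m p).card : ℝ) / p = fc p * (1 - 1 / (p : ℝ)) ^ 2 := by
  by_cases h2 : p = 2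
  · subst h2
    rw [Om_card_div s m 2 hm.two_dvd]
    unfold fc
    norm_num
  · have h3 : (3 : ℝ) ≤ p := by
      have := hp.two_le
      exact_mod_cast (by omega : 3 ≤ p)
    unfold fc
    rw [if_neg h2, Om_card_ndiv s m p hps (hd h2)]
    have h4 : (p : ℝ) - 1 ≠ 0 := by linarith
    have h5 : (p : ℝ) ≠ 0 := by linarith
    push_cast
    field_simp
    ring

theorem D_lower (s t m : ℕ) (hst : s ≤ t) (hm : Even m) : S2 s * (V s * V t) ≤ D s t m := by
  have h1 := D_eq s t m hst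
  have hVs := V_pos s
  have hVt := V_pos t
  have h2 : S2 s * V s ^ 2 ≤ ∏ p ∈ PP s, (1 - ((Om s m p).card : ℝ) / p) := by
    unfold S2
    rw [V_eq s, ← prod_pow, ← prod_mul_distrib]
    refine prod_le_prod (fun p hp => ?_) fun p hp => ?_
    · rw [mem_PP] at hp
      exact mul_nonneg (fc_pos p hp.2).le (sq_nonneg _)
    · rw [mem_PP] at hp
      exact factor_ge s m p hm hp.2 hp.1
  have h3 : S2 s * V s ^ 2 * V t ≤ D s t m * V s := by
    rw [h1]
    exact mul_le_mul_of_nonneg_right h2 hVt.le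
  have h4 : (S2 s * (V s * V t)) * V s ≤ D s t m * V s := by
    refine le_trans (le_of_eq ?_) h3
    ring
  exact le_of_mul_le_mul_right h4 hVs

theorem D_upper (s t m : ℕ) (hst : s ≤ t) (hm : Even m) (hd : ∀ p ≤ s, p.Prime → p ≠ 2 → ¬ p ∣ m) :
    D s t m = S2 s * (V s * V t) := by
  have h1 := D_eq s t m hst
  have hVs := V_pos s
  have hVt := V_pos t
  have h2 : ∏ p ∈ PP s, (1 - ((Om s m p).card : ℝ) / p) = S2 s * V s ^ 2 := by
    unfold S2
    rw [V_eq s, ← prod_pow, ← prod_mul_distrib]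
    refine prod_congr rfl fun p hp => ?_
    rw [mem_PP] at hp
    exact factor_eq s m p hm hp.2 hp.1 (hd p hp.1 hp.2)
  rw [h2] at h1
  have h4 : D s t m * V s = (S2 s * (V s * V t)) * V s := by
    rw [h1]
    ring
  exact mul_right_cancel₀ hVs.ne' h4

/-- the condition by residues -/
theorem cond_iff (s t m k : ℕ) (hst : s ≤ t) (hk : k ≤ m) :
    (Rg s k ∧ Rg t (m - k)) ↔ ∀ p ≤ t, p.Prime → k % p ∉ Om s m p := by
  have key : ∀ p, p ∣ m - k ↔ k % p = m % p := by
    intro p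
    rw [← Nat.modEq_iff_dvd' hk]
    rfl
  unfold Om
  constructor
  · rintro ⟨h1, h2⟩ p hp hpp
    have h3 := h2 p hp hpp
    rw [key] at h3
    split_ifs with h4
    · rw [mem_insert, mem_singleton, not_or]
      exact ⟨fun h => h1 p h4 hpp (Nat.dvd_of_mod_eq_zero h), h3⟩
    · rw [mem_singleton]
      exact h3
  · intro h
    constructor
    · intro p hp hpp hd
      have h1 := h p (hp.trans hst) hpp
      rw [if_pos hp, mem_insert, not_or] at h1
      exact h1.1 (Nat.mod_eq_zero_of_dvd hd)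
    · intro p hp hpp hd
      rw [key] at hd
      have h1 := h p hp hpp
      split_ifs at h1
      · rw [mem_insert, mem_singleton, not_or] at h1
        exact h1.2 hd
      · rw [mem_singleton] at h1
        exact h1 hd

/-- connected sets are intervals -/
theorem conn (u v : ℕ) (s : Finset ℕ) (hs : s ⊆ Ioc u v) (h : ∀ a ∈ s, ∀ b ∈ s, ∀ c, a ≤ c → c ≤ b → c ∈ s) :
    ∃ a l, s = Ioc a (a + l) ∧ (s.Nonempty → u ≤ a ∧ a + l ≤ v) := by
  rcases s.eq_empty_or_nonempty with h0 | h0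
  · exact ⟨0, 0, by rw [h0]; rfl, fun h1 => absurd h1 (by rw [h0]; simp)⟩
  · have h1 := s.min'_mem h0
    have h2 := s.max'_mem h0
    have h12 := s.min'_le _ h2
    set a := s.min' h0 with ha
    set b := s.max' h0 with hb
    have h1' := mem_Ioc.1 (hs h1)
    have h2' := mem_Ioc.1 (hs h2)
    refine ⟨a - 1, b - (a - 1), ?_, fun _ => ⟨by omega, by omega⟩⟩
    ext j
    rw [mem_Ioc]
    constructor
    · intro hj
      have h3 := s.min'_le j hj
      have h4 := s.le_max' j hj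
      rw [← ha] at h3
      rw [← hb] at h4
      omega
    · rintro ⟨h3, h4⟩
      exact h a h1 b h2 j (by omega) (by omega)

/-- **Lower bound** for the number of the pairs `k, m - k`, weighted. -/
theorem pair_low (ε : ℝ) (hε : 0 < ε) : ∃ B : ℕ, ∃ K : ℝ, 0 < K ∧ ∀ T : ℕ → ℕ, Monotone T → (∀ k, 2 ≤ T k) →
    ∀ m u y : ℕ, Even m → 2 * (u + y) ≤ m →
    (1 - ε) * S2 (T m) * y - K * ((T m : ℝ) + 1) ^ B * ((V (T m))⁻¹) ^ 2 ≤
      ∑ k ∈ Ioc u (u + y), (if Rg (T k) k ∧ Rg (T (m - k)) (m - k) then (V (T k))⁻¹ * (V (T (m - k)))⁻¹ else 0) := by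
  obtain ⟨B, K, hK, hfl⟩ := flg 2 ε hε
  refine ⟨B + 2, K, hK, fun T hT hT2 m u y hm hum => ?_⟩
  set T' := T m with hT'
  have hk2 : ∀ k ∈ Ioc u (u + y), T k ≤ T (m - k) ∧ T (m - k) ≤ T' ∧ k ≤ m := by
    intro k hk
    rw [mem_Ioc] at hk
    exact ⟨hT (by omega), hT (by omega), by omega⟩
  have hmaps : ∀ k ∈ Ioc u (u + y), (T k, T (m - k)) ∈ range (T' + 1) ×ˢ range (T' + 1) := by
    intro k hk
    obtain ⟨h1, h2, _⟩ := hk2 k hk
    rw [mem_product, mem_range, mem_range]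
    simp only
    omega
  rw [← sum_fiberwise_of_maps_to hmaps]
  have hcard := card_eq_sum_card_fiberwise hmaps
  rw [Nat.card_Ioc] at hcard
  have e : u + y - u = y := by omega
  rw [e] at hcard
  have hterm : ∀ st ∈ range (T' + 1) ×ˢ range (T' + 1),
      (1 - ε) * S2 T' * (((Ioc u (u + y)).filter (fun j => (T j, T (m - j)) = st)).card : ℝ) -
      K * ((T' : ℝ) + 1) ^ B * ((V T')⁻¹) ^ 2 ≤
      ∑ k ∈ (Ioc u (u + y)).filter (fun j => (T j, T (m - j)) = st),
        (if Rg (T k) k ∧ Rg (T (m - k)) (m - k) then (V (T k))⁻¹ * (V (T (m - k)))⁻¹ else 0) := by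
    rintro ⟨s, t⟩ hst
    rw [mem_product, mem_range, mem_range] at hst
    simp only at hst
    set F := (Ioc u (u + y)).filter (fun j => (T j, T (m - j)) = (s, t)) with hF
    have hFmem : ∀ j, j ∈ F ↔ (u < j ∧ j ≤ u + y) ∧ T j = s ∧ T (m - j) = t := by
      intro j
      rw [hF, mem_filter, mem_Ioc, Prod.mk.injEq]
    have hVT := V_pos T'
    rcases F.eq_empty_or_nonempty with h0 | h0
    · rw [h0, card_empty, sum_empty]
      simp only [Nat.cast_zero, mul_zero, zero_sub]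
      have : 0 ≤ K * ((T' : ℝ) + 1) ^ B * ((V T')⁻¹) ^ 2 := by positivity
      linarith
    obtain ⟨j0, hj0⟩ := h0
    have hj0' := (hFmem j0).1 hj0
    have hs2 : 2 ≤ s := by rw [← hj0'.2.1]; exact hT2 _
    have hst2 : s ≤ t := by
      rw [← hj0'.2.1, ← hj0'.2.2]
      exact (hk2 j0 (mem_Ioc.2 hj0'.1)).1
    have htT : t ≤ T' := by omega
    obtain ⟨a, l, hal, hal2⟩ := conn u (u + y) F (filter_subset _ _) (by
      intro a ha b hb c hac hcb
      rw [hFmem] at ha hb ⊢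
      have h1 : T a ≤ T c := hT hac
      have h2 : T c ≤ T b := hT hcb
      have h3 : T (m - c) ≤ T (m - a) := hT (by omega)
      have h4 : T (m - b) ≤ T (m - c) := hT (by omega)
      omega)
    have hal3 := hal2 ⟨j0, hj0⟩
    have e1 : ∑ k ∈ F, (if Rg (T k) k ∧ Rg (T (m - k)) (m - k) then (V (T k))⁻¹ * (V (T (m - k)))⁻¹ else 0) =
        ∑ k ∈ F, (if (∀ p ≤ t, p.Prime → k % p ∉ Om s m p) then (V s)⁻¹ * (V t)⁻¹ else 0) := by
      refine sum_congr rfl fun k hk => ?_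
      rw [hFmem] at hk
      rw [hk.2.1, hk.2.2]
      have h1 := cond_iff s t m k hst2 (by omega)
      by_cases h : Rg s k ∧ Rg t (m - k)
      · rw [if_pos h, if_pos (h1.1 h)]
      · rw [if_neg h, if_neg (fun h' => h (h1.2 h'))]
    rw [e1, ← sum_filter, sum_const, nsmul_eq_mul]
    have h1 := hfl t (Om s m) (fun p _ hpp => Om_sub s m p hpp) a l
    rw [← hal] at h1
    have hD : ∏ p ∈ (range (t + 1)).filter Nat.Prime, (1 - ((Om s m p).card : ℝ) / p) = D s t m := rfl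
    rw [hD, abs_le] at h1
    have hFl : (F.card : ℝ) = l := by
      rw [hal, Nat.card_Ioc]
      congr 1
      omega
    rw [hFl]
    have hVs := V_pos s
    have hVt := V_pos t
    have hDl := D_lower s t m hst2 hm
    have hDS : S2 T' * (V s * V t) ≤ D s t m := by
      refine le_trans ?_ hDl
      have := S2_anti s T' hs2 (hst2.trans htT)
      gcongr
    rcases le_or_gt ε 1 with hε1 | hε1
    · have h2 : (1 - ε) * (l * (S2 T' * (V s * V t))) - K * ((t : ℝ) + 1) ^ B ≤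
          ((F.filter (fun n => ∀ p ≤ t, p.Prime → n % p ∉ Om s m p)).card : ℝ) := by
        have h3 : (1 - ε) * (l * (S2 T' * (V s * V t))) ≤ (1 - ε) * (l * D s t m) := by
          have : 0 ≤ 1 - ε := by linarith
          gcongr
        linarith [h1.1]
      have h3 := mul_le_mul_of_nonneg_right h2 (show 0 ≤ (V s)⁻¹ * (V t)⁻¹ by positivity)
      refine le_trans ?_ h3
      have h4 : ((1 - ε) * (l * (S2 T' * (V s * V t))) - K * ((t : ℝ) + 1) ^ B) * ((V s)⁻¹ * (V t)⁻¹) =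
          (1 - ε) * S2 T' * l - K * ((t : ℝ) + 1) ^ B * ((V s)⁻¹ * (V t)⁻¹) := by
        field_simp
      rw [h4]
      have h5 : (V t)⁻¹ ≤ (V T')⁻¹ := Vinv_anti _ _ htT
      have h5' : (V s)⁻¹ ≤ (V T')⁻¹ := Vinv_anti _ _ (hst2.trans htT)
      have h6 : (t : ℝ) ≤ T' := by exact_mod_cast htT
      have h7 : K * ((t : ℝ) + 1) ^ B * ((V s)⁻¹ * (V t)⁻¹) ≤ K * ((T' : ℝ) + 1) ^ B * ((V T')⁻¹) ^ 2 := by
        rw [sq]
        gcongr
      linarith
    · have h8 : (1 - ε) * S2 T' * l ≤ 0 := by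
        have := S2_pos T'
        refine mul_nonpos_of_nonpos_of_nonneg (mul_nonpos_of_nonpos_of_nonneg (by linarith) this.le) (Nat.cast_nonneg _)
      have h9 : 0 ≤ K * ((T' : ℝ) + 1) ^ B * ((V T')⁻¹) ^ 2 := by positivity
      have h10 : 0 ≤ ((F.filter (fun n => ∀ p ≤ t, p.Prime → n % p ∉ Om s m p)).card : ℝ) * ((V s)⁻¹ * (V t)⁻¹) :=
        mul_nonneg (Nat.cast_nonneg _) (mul_nonneg (inv_nonneg.2 hVs.le) (inv_nonneg.2 hVt.le))
      linarith
  refine le_trans ?_ (sum_le_sum hterm)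
  rw [sum_sub_distrib, ← mul_sum, sum_const, card_product, card_range, nsmul_eq_mul]
  have h8 : (y : ℝ) = ∑ st ∈ range (T' + 1) ×ˢ range (T' + 1),
      (((Ioc u (u + y)).filter (fun j => (T j, T (m - j)) = st)).card : ℝ) := by
    exact_mod_cast hcard
  rw [← h8]
  push_cast
  refine le_of_eq ?_
  ring

/-- **Upper bound** for the mass of the `k` with `m - k` rough. -/
theorem small_up (ε : ℝ) (hε : 0 < ε) : ∃ B : ℕ, ∃ K : ℝ, 0 < K ∧ ∀ T : ℕ → ℕ, Monotone T → (∀ k, 2 ≤ T k) →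
    ∀ m u y t : ℕ, Even m → u + y ≤ m → T (u + y) ≤ t → (∀ p ≤ t, p.Prime → p ≠ 2 → ¬ p ∣ m) →
    ∑ k ∈ Ioc u (u + y), (if Rg (T k) k ∧ Rg t (m - k) then (V (T k))⁻¹ else 0) ≤
      (1 + ε) * V t * S2 (T u) * y + K * ((t : ℝ) + 1) ^ B * (V t)⁻¹ := by
  obtain ⟨B, K, hK, hfl⟩ := flg 2 ε hε
  refine ⟨B + 1, K, hK, fun T hT hT2 m u y t hm hum htT hd => ?_⟩
  have hmaps : ∀ k ∈ Ioc u (u + y), T k ∈ range (t + 1) := by
    intro k hk
    rw [mem_Ioc] at hk
    rw [mem_range]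
    have := hT hk.2
    omega
  rw [← sum_fiberwise_of_maps_to hmaps]
  have hcard := card_eq_sum_card_fiberwise hmaps
  rw [Nat.card_Ioc] at hcard
  have e : u + y - u = y := by omega
  rw [e] at hcard
  have hVt := V_pos t
  have hterm : ∀ s ∈ range (t + 1),
      ∑ k ∈ (Ioc u (u + y)).filter (fun j => T j = s), (if Rg (T k) k ∧ Rg t (m - k) then (V (T k))⁻¹ else 0) ≤
      (1 + ε) * V t * S2 (T u) * (((Ioc u (u + y)).filter (fun j => T j = s)).card : ℝ) +
      K * ((t : ℝ) + 1) ^ B * (V t)⁻¹ := by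
    intro s hs
    rw [mem_range] at hs
    set F := (Ioc u (u + y)).filter (fun j => T j = s) with hF
    have hFmem : ∀ j, j ∈ F ↔ (u < j ∧ j ≤ u + y) ∧ T j = s := by
      intro j
      rw [hF, mem_filter, mem_Ioc]
    have hS0 := S2_pos (T u)
    rcases F.eq_empty_or_nonempty with h0 | h0
    · rw [h0, card_empty, sum_empty]
      positivity
    obtain ⟨j0, hj0⟩ := h0
    have hj0' := (hFmem j0).1 hj0
    have hs2 : T u ≤ s := by rw [← hj0'.2]; exact hT (by omega)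
    have hst2 : s ≤ t := by omega
    obtain ⟨a, l, hal, hal2⟩ := conn u (u + y) F (filter_subset _ _) (by
      intro a ha b hb c hac hcb
      rw [hFmem] at ha hb ⊢
      have h1 : T a ≤ T c := hT hac
      have h2 : T c ≤ T b := hT hcb
      omega)
    have e1 : ∑ k ∈ F, (if Rg (T k) k ∧ Rg t (m - k) then (V (T k))⁻¹ else 0) =
        ∑ k ∈ F, (if (∀ p ≤ t, p.Prime → k % p ∉ Om s m p) then (V s)⁻¹ else 0) := by
      refine sum_congr rfl fun k hk => ?_
      rw [hFmem] at hk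
      rw [hk.2]
      have h1 := cond_iff s t m k hst2 (by omega)
      by_cases h : Rg s k ∧ Rg t (m - k)
      · rw [if_pos h, if_pos (h1.1 h)]
      · rw [if_neg h, if_neg (fun h' => h (h1.2 h'))]
    rw [e1, ← sum_filter, sum_const, nsmul_eq_mul]
    have h1 := hfl t (Om s m) (fun p _ hpp => Om_sub s m p hpp) a l
    rw [← hal] at h1
    have hD : ∏ p ∈ (range (t + 1)).filter Nat.Prime, (1 - ((Om s m p).card : ℝ) / p) = D s t m := rfl
    rw [hD, abs_le] at h1
    have hFl : (F.card : ℝ) = l := by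
      rw [hal, Nat.card_Ioc]
      congr 1
      omega
    rw [hFl]
    have hVs := V_pos s
    have hDu := D_upper s t m hst2 hm (fun p hp => hd p (hp.trans hst2))
    have hDS : D s t m ≤ S2 (T u) * (V s * V t) := by
      rw [hDu]
      have := S2_anti (T u) s (hT2 u) hs2
      gcongr
    have h2 : ((F.filter (fun n => ∀ p ≤ t, p.Prime → n % p ∉ Om s m p)).card : ℝ) ≤
        (1 + ε) * (l * (S2 (T u) * (V s * V t))) + K * ((t : ℝ) + 1) ^ B := by
      have h3 : (1 + ε) * (l * D s t m) ≤ (1 + ε) * (l * (S2 (T u) * (V s * V t))) := by gcongr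
      linarith [h1.2]
    have h3 := mul_le_mul_of_nonneg_right h2 (inv_nonneg.2 hVs.le)
    refine h3.trans ?_
    have h4 : ((1 + ε) * (l * (S2 (T u) * (V s * V t))) + K * ((t : ℝ) + 1) ^ B) * (V s)⁻¹ =
        (1 + ε) * V t * S2 (T u) * l + K * ((t : ℝ) + 1) ^ B * (V s)⁻¹ := by
      have h5 : V s * (V s)⁻¹ = 1 := mul_inv_cancel₀ hVs.ne'
      calc ((1 + ε) * (l * (S2 (T u) * (V s * V t))) + K * ((t : ℝ) + 1) ^ B) * (V s)⁻¹ =
            (1 + ε) * V t * S2 (T u) * l * (V s * (V s)⁻¹) + K * ((t : ℝ) + 1) ^ B * (V s)⁻¹ := by ring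
        _ = _ := by rw [h5, mul_one]
    rw [h4]
    have h5 : (V s)⁻¹ ≤ (V t)⁻¹ := Vinv_anti _ _ hst2
    gcongr
  refine (sum_le_sum hterm).trans ?_
  rw [sum_add_distrib, ← mul_sum, sum_const, card_range, nsmul_eq_mul]
  have h8 : (y : ℝ) = ∑ s ∈ range (t + 1), (((Ioc u (u + y)).filter (fun j => T j = s)).card : ℝ) := by
    exact_mod_cast hcard
  rw [← h8]
  push_cast
  refine le_of_eq ?_
  ring

end Pool.Agent.T2H32.GB
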