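import Pool.Agent.T2H32.GB.Pr
import Pool.Agent.T2H32.GM.Up

set_option autoImplicit false

/-! # The upper bound for the least summand -/

open MeasureTheory ProbabilityTheory Filter Topology Finset
open scoped ENNReal
open Pool.Agent.T2H32.BF (V V_pos V_anti mertens)
open Pool.Agent.T2H32.GM (q q_nonneg q_le_one Rg tlog Vinv Vinv_anti t2 log2k T_small q_ev log_pow_small Tpow
  log2_bounds' inf_A)

namespace Pool.Agent.T2H32.GB

/-- `log² m loglog m` -/
noncomputable def thr (m : ℕ) : ℝ := Real.log m ^ 2 * Real.log (Real.log m)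

theorem tll : Tendsto (fun k : ℕ => Real.log (Real.log k)) atTop atTop := Real.tendsto_log_atTop.comp tlog

theorem thr_atTop : Tendsto thr atTop atTop :=
  (((tendsto_pow_atTop (by norm_num)).comp tlog).atTop_mul_atTop₀ tll)

/-- `thr m` is small compared with `m` -/
theorem thr_small (C : ℝ) (hC : 0 < C) : ∀ᶠ m : ℕ in atTop, C * thr m ≤ m := by
  filter_upwards [log_pow_small 3 C 1 one_pos, tlog.eventually_ge_atTop 1, eventually_ge_atTop 1] with m h1 h2 h3
  have hll : Real.log (Real.log m) ≤ Real.log m := (Real.log_le_self (by linarith))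
  rw [Real.rpow_one, one_mul] at h1
  unfold thr
  calc C * (Real.log m ^ 2 * Real.log (Real.log m)) ≤ C * (Real.log m ^ 2 * Real.log m) := by gcongr
    _ = C * Real.log m ^ 3 := by ring
    _ ≤ m := h1

/-- `log y` for `y` about `c log² m loglog m` -/
theorem log_thr (C ε : ℝ) (hC : 0 < C) (hε : 0 < ε) : ∀ᶠ m : ℕ in atTop, ∀ y : ℝ, 1 ≤ y → y ≤ C * thr m →
    Real.log y ≤ (2 + ε) * Real.log (Real.log m) := by
  have h0 : Tendsto (fun x : ℝ => Real.log x / x) atTop (𝓝 0) := Real.isLittleO_log_id_atTop.tendsto_div_nhds_zero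
  have h1 := (h0.comp tll).eventually_lt_const (show (0 : ℝ) < ε / 2 by positivity)
  filter_upwards [h1, tll.eventually_ge_atTop (max 1 (Real.log C / (ε / 2))), tlog.eventually_ge_atTop 1] with m h1 h2 h3 y hy hyC
  simp only [Function.comp_apply] at h1
  have hll1 : 1 ≤ Real.log (Real.log m) := (le_max_left _ _).trans h2
  have hll2 : Real.log C / (ε / 2) ≤ Real.log (Real.log m) := (le_max_right _ _).trans h2
  rw [div_le_iff₀ (by positivity)] at hll2
  rw [div_lt_iff₀ (by linarith)] at h1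
  have h4 := Real.log_le_log (by linarith) hyC
  unfold thr at h4
  rw [Real.log_mul hC.ne' (by positivity), Real.log_mul (by positivity) (by linarith), Real.log_pow] at h4
  push_cast at h4
  nlinarith

section

variable (T : ℕ → ℕ) (hT : Monotone T) (hT2 : ∀ k, 2 ≤ T k)
  (hlog : Tendsto (fun k : ℕ => Real.log (T k) / Real.log (Real.log k)) atTop (𝓝 0))

include hlog in
/-- `T` is small -/
theorem T_o : Tendsto (fun k : ℕ => (T k : ℝ) / Real.log k) atTop (𝓝 0) := by
  have h1 := hlog.eventually_lt_const (show (0 : ℝ) < 1 / 2 by norm_num)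
  have h2 : Tendsto (fun k : ℕ => Real.log k ^ (-(1 / 2) : ℝ)) atTop (𝓝 0) :=
    (tendsto_rpow_neg_atTop (by norm_num)).comp tlog
  refine squeeze_zero' ?_ ?_ h2
  · filter_upwards with k
    exact div_nonneg (Nat.cast_nonneg _) (Real.log_natCast_nonneg k)
  · filter_upwards [h1, tlog.eventually_ge_atTop 3] with k h1 h3
    have hll : 0 < Real.log (Real.log k) := Real.log_pos (by linarith)
    rw [div_lt_iff₀ hll] at h1
    have hl : 0 < Real.log k := by linarith
    have h4 : (T k : ℝ) ≤ Real.log k ^ (1 / 2 : ℝ) := by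
      rcases Nat.eq_zero_or_pos (T k) with h | h
      · rw [h, Nat.cast_zero]
        positivity
      · have hT0 : (0 : ℝ) < T k := by exact_mod_cast h
        rw [← Real.exp_log hT0, Real.rpow_def_of_pos hl]
        apply Real.exp_le_exp.2
        linarith
    rw [div_le_iff₀ hl]
    refine h4.trans (le_of_eq ?_)
    rw [← Real.rpow_add_one hl.ne']
    norm_num

include hT hT2 hlog in
/-- **The expected number of representations** -/
theorem sum_lower (σ : ℝ) (hσ : 0 < σ) (hσS : ∀ k, σ ≤ S2 (T k)) (c η : ℝ) (hc : 0 < c) (hη : 0 < η)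
    (hηc : η < c * σ / 2) : ∀ᶠ m : ℕ in atTop, Even m →
    (c * σ / 2 - η) * Real.log m ≤ ∑ k ∈ Ioc 0 ⌊c * thr m⌋₊, q T k * q T (m - k) := by
  set ε := min (η / (2 * c * σ)) (1 / 4) with hε
  have hε0 : 0 < ε := lt_min (by positivity) (by norm_num)
  have hε1 : 2 * c * σ * ε ≤ η := by
    have : ε ≤ η / (2 * c * σ) := min_le_left _ _
    rw [le_div_iff₀ (by positivity)] at this
    linarith
  have hε2 : ε ≤ 1 / 4 := min_le_right _ _
  have hTl := T_o T hlog
  obtain ⟨B, K, hK, h⟩ := pair_low ε hε0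
  obtain ⟨k0, hk0⟩ := eventually_atTop.1 ((q_ev T hT hTl).and (eventually_ge_atTop 3))
  filter_upwards [Tpow T hlog B (1 / 2) (by norm_num), Vinv (1 / 4) (by norm_num), T_small T hTl 2 (by norm_num),
    thr_small (4 * (c + 1)) (by positivity), log_thr c (2 * ε) hc (by positivity), tlog.eventually_ge_atTop (max 1 ((K + 1) * 1)),
    (thr_atTop.eventually_ge_atTop ((k0 + 1 + 2) / (ε * c / 2))), (thr_atTop.eventually_ge_atTop (1 / c)),
    tll.eventually_ge_atTop (max 1 (K / (ε * σ * c / 2))), eventually_ge_atTop (4 * (k0 + 3)), thr_atTop.eventually_ge_atTop 1] with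
    m h1 h2 h3 h4 h5 h6 h7 h8 h9 h10 h11 hm
  set lam := Real.log m with hlam
  set ll := Real.log lam with hll
  have hlam1 : 1 ≤ lam := (le_max_left _ _).trans h6
  have hll1 : 1 ≤ ll := (le_max_left _ _).trans h9
  have hllK : K / (ε * σ * c / 2) ≤ ll := (le_max_right _ _).trans h9
  rw [div_le_iff₀ (by positivity)] at h7 h8 hllK
  obtain ⟨y, hy⟩ : ∃ y, y = ⌊c * thr m⌋₊ := ⟨_, rfl⟩
  rw [← hy]
  have hthr0 : 0 < thr m := by linarith
  have hyle : (y : ℝ) ≤ c * thr m := by
    rw [hy]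
    exact Nat.floor_le (by positivity)
  have hyge : c * thr m - 1 ≤ y := by
    rw [hy]
    exact (Nat.sub_one_lt_floor _).le
  have hy1 : (1 : ℝ) ≤ y := by
    have : 1 ≤ ⌊c * thr m⌋₊ := (Nat.one_le_floor_iff _).2 (by linarith)
    rw [hy]
    exact_mod_cast this
  have hk0y : k0 + 1 ≤ y := by
    have h12 : ((k0 : ℝ) + 1 + 2) ≤ y + 1 := by
      have : (k0 : ℝ) + 1 + 2 ≤ thr m * (ε * c / 2) := h7
      have h13 : thr m * (ε * c / 2) ≤ c * thr m := by nlinarith
      linarith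
    have h13 : (k0 : ℝ) + 1 ≤ y := by linarith
    exact_mod_cast h13
  have hym : 4 * y ≤ m := by
    have : 4 * (y : ℝ) ≤ m := by nlinarith
    exact_mod_cast this
  have hmR : (m : ℝ) ≤ m := le_rfl
  -- restrict the sum
  have hsub : ∑ k ∈ Ioc k0 y, q T k * q T (m - k) ≤ ∑ k ∈ Ioc 0 y, q T k * q T (m - k) := by
    refine sum_le_sum_of_subset_of_nonneg ?_ fun k _ _ => mul_nonneg (q_nonneg T k) (q_nonneg T _)
    intro k hk
    rw [mem_Ioc] at hk ⊢
    omega
  refine le_trans ?_ hsub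
  have hly : 0 < Real.log y := by
    have h12 : (1 : ℝ) < y := by
      have : 3 ≤ k0 := (hk0 k0 le_rfl).2
      exact_mod_cast (by omega : 1 < y)
    exact Real.log_pos h12
  have hterm : ∀ k ∈ Ioc k0 y, (if Rg (T k) k ∧ Rg (T (m - k)) (m - k) then (V (T k))⁻¹ * (V (T (m - k)))⁻¹ else 0) /
      (Real.log y * lam) ≤ q T k * q T (m - k) := by
    intro k hk
    rw [mem_Ioc] at hk
    have e1 := ((hk0 k hk.1.le).1 k le_rfl (by omega)).1
    have e2 := ((hk0 (m - k) (by omega)).1 (m - k) le_rfl (by omega)).1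
    have h3k : 3 ≤ k := by
      have := (hk0 k0 le_rfl).2
      omega
    have l1 : 0 < Real.log k := Real.log_pos (by exact_mod_cast (by omega : 1 < k))
    have l2 : 0 < Real.log ((m - k : ℕ) : ℝ) := Real.log_pos (by exact_mod_cast (by omega : 1 < m - k))
    have l3 : Real.log k ≤ Real.log y := Real.log_le_log (by exact_mod_cast (by omega : 0 < k)) (by exact_mod_cast hk.2)
    have l4 : Real.log ((m - k : ℕ) : ℝ) ≤ lam :=
      Real.log_le_log (by exact_mod_cast (by omega : 0 < m - k)) (by exact_mod_cast (by omega : m - k ≤ m))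
    have v1 := V_pos (T k)
    have v2 := V_pos (T (m - k))
    rw [e1, e2, div_mul_div_comm]
    by_cases ha : Rg (T k) k <;> by_cases hb : Rg (T (m - k)) (m - k)
    · rw [if_pos ⟨ha, hb⟩, if_pos ha, if_pos hb]
      gcongr
    · rw [if_neg (fun h' => hb h'.2), if_neg hb]
      simp
    · rw [if_neg (fun h' => ha h'.1), if_neg ha]
      simp
    · rw [if_neg (fun h' => ha h'.1), if_neg ha]
      simp
  refine le_trans ?_ (sum_le_sum hterm)
  rw [← sum_div, le_div_iff₀ (by positivity)]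
  have h12 := h T hT hT2 m k0 (y - k0) hm (by omega)
  have e3 : k0 + (y - k0) = y := by omega
  rw [e3, Nat.cast_sub (by omega)] at h12
  refine le_trans ?_ h12
  -- errors
  have hTm : T m ≤ T (2 * m) := hT (by omega)
  have hTm' : (T m : ℝ) ≤ T (2 * m) := by exact_mod_cast hTm
  have herr : K * ((T m : ℝ) + 1) ^ B * ((V (T m))⁻¹) ^ 2 ≤ K * lam := by
    have hV := V_pos (T m)
    have h13 : (V (T m))⁻¹ ≤ lam ^ (1 / 4 : ℝ) := h2 (T m) (by linarith)
    calc K * ((T m : ℝ) + 1) ^ B * ((V (T m))⁻¹) ^ 2 ≤ K * ((T (2 * m) : ℝ) + 1) ^ B * (lam ^ (1 / 4 : ℝ)) ^ 2 := by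
          gcongr
      _ ≤ K * lam ^ (1 / 2 : ℝ) * (lam ^ (1 / 4 : ℝ)) ^ 2 := by gcongr
      _ = K * lam := by
        rw [← Real.rpow_natCast (lam ^ (1 / 4 : ℝ)) 2, ← Real.rpow_mul (by linarith), mul_assoc,
          ← Real.rpow_add (by linarith)]
        norm_num
  have hKl : K * lam ≤ ε * σ * c / 2 * thr m := by
    unfold thr
    rw [← hlam, ← hll]
    have h13 : K * lam ≤ (ll * (ε * σ * c / 2)) * lam := by gcongr
    have h14 : (ll * (ε * σ * c / 2)) * lam ≤ ε * σ * c / 2 * (lam ^ 2 * ll) := by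
      have : lam ≤ lam ^ 2 := by nlinarith
      calc (ll * (ε * σ * c / 2)) * lam ≤ (ll * (ε * σ * c / 2)) * lam ^ 2 := by gcongr
        _ = _ := by ring
    exact h13.trans h14
  have hS := hσS m
  have hyk : c * thr m * (1 - ε / 2) ≤ (y : ℝ) - k0 := by
    have : (k0 : ℝ) + 1 + 2 ≤ thr m * (ε * c / 2) := h7
    nlinarith
  have hmain : (1 - 2 * ε) * (σ * (c * thr m)) ≤ (1 - ε) * S2 (T m) * ((y : ℝ) - k0) -
      K * ((T m : ℝ) + 1) ^ B * ((V (T m))⁻¹) ^ 2 := by
    have a1 : (1 - ε) * S2 (T m) * ((y : ℝ) - k0) ≥ (1 - ε) * σ * (c * thr m * (1 - ε / 2)) := by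
      have : 0 ≤ 1 - ε := by linarith
      have : 0 ≤ c * thr m * (1 - ε / 2) := by
        have : 0 ≤ 1 - ε / 2 := by linarith
        positivity
      have := S2_pos (T m)
      gcongr
    have a2 : (1 - ε) * σ * (c * thr m * (1 - ε / 2)) = (1 - 3 / 2 * ε + ε ^ 2 / 2) * (σ * (c * thr m)) := by ring
    have a3 : ε * σ * c / 2 * thr m = ε / 2 * (σ * (c * thr m)) := by ring
    have a4 : 0 ≤ σ * (c * thr m) := by positivity
    have a5 : 0 ≤ ε ^ 2 / 2 * (σ * (c * thr m)) := by positivity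
    nlinarith
  refine le_trans ?_ hmain
  have hlogy : Real.log y ≤ (2 + 2 * ε) * ll := h5 y hy1 hyle
  have hcc : 0 ≤ (c * σ / 2 - η) * lam := mul_nonneg (by linarith) (by linarith)
  calc (c * σ / 2 - η) * lam * (Real.log y * lam) ≤ (c * σ / 2 - η) * lam * (((2 + 2 * ε) * ll) * lam) := by
        gcongr
    _ = ((c * σ / 2 - η) * (2 + 2 * ε)) * (lam ^ 2 * ll) := by ring
    _ ≤ ((1 - 2 * ε) * (σ * c)) * (lam ^ 2 * ll) := by
      have : 0 ≤ lam ^ 2 * ll := by positivity
      refine mul_le_mul_of_nonneg_right ?_ this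
      have hcs : 0 < c * σ := by positivity
      nlinarith
    _ = _ := by
      unfold thr
      ring

end

/-- `m` is even and not a sum of two random primes, the least at most `c log² m loglog m` -/
def EX {Ω : Type*} (A : ℕ → Set Ω) (c : ℝ) (m : ℕ) : Set Ω :=
  {ω | Even m ∧ ∀ p ≤ m, (p : ℝ) ≤ c * thr m → ω ∈ A p → ω ∉ A (m - p)}

variable {Ω : Type*} [MeasurableSpace Ω] {P : Measure Ω}

theorem measurable_EX (A : ℕ → Set Ω) (hA : ∀ k, MeasurableSet (A k)) (c : ℝ) (m : ℕ) : MeasurableSet (EX A c m) := by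
  by_cases hm : Even m
  · have e : EX A c m = ⋂ p ∈ (range (m + 1)).filter (fun p : ℕ => (p : ℝ) ≤ c * thr m), (A p ∩ A (m - p))ᶜ := by
      unfold EX
      ext ω
      simp only [Set.mem_ofPred_eq, Set.mem_iInter, mem_filter, mem_range, Set.mem_compl_iff, Set.mem_inter_iff,
        not_and]
      constructor
      · rintro ⟨_, h⟩ p hp h1
        exact h p (by omega) hp.2 h1
      · intro h
        exact ⟨hm, fun p hp hp2 h1 => h p ⟨by omega, hp2⟩ h1⟩
    rw [e]
    exact Finset.measurableSet_biInter _ fun p _ => ((hA p).inter (hA _)).compl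
  · have e : EX A c m = ∅ := by
      unfold EX
      ext ω
      simp [hm]
    rw [e]
    exact MeasurableSet.empty

theorem EX_sub (A : ℕ → Set Ω) (c : ℝ) (m : ℕ) (h : ⌊c * thr m⌋₊ ≤ m) (hc : 0 ≤ c * thr m) :
    EX A c m ⊆ F A m ⌊c * thr m⌋₊ := by
  rintro ω ⟨_, hω⟩
  unfold F
  simp only [Set.mem_iInter, mem_Ioc, Set.mem_compl_iff, Set.mem_inter_iff, not_and]
  intro k hk h1
  exact hω k (by omega) ((Nat.le_floor_iff hc).1 hk.2) h1

section

variable (T : ℕ → ℕ) (hT : Monotone T) (hT2 : ∀ k, 2 ≤ T k)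
  (hlog : Tendsto (fun k : ℕ => Real.log (T k) / Real.log (Real.log k)) atTop (𝓝 0))

include hT hT2 hlog in
theorem PEX_le [IsProbabilityMeasure P] (A : ℕ → Set Ω) (hA : ∀ k, MeasurableSet (A k))
    (hind : iIndepSet A P) (hP : ∀ k, P.real (A k) = q T k) (σ : ℝ) (hσ : 0 < σ) (hσS : ∀ k, σ ≤ S2 (T k))
    (c η : ℝ) (hc : 0 < c) (hη : 0 < η) (hηc : η < c * σ / 2) : ∀ᶠ m : ℕ in atTop,
    P.real (EX A c m) ≤ (m : ℝ) ^ (-(c * σ / 2 - η)) := by
  filter_upwards [sum_lower T hT hT2 hlog σ hσ hσS c η hc hη hηc, thr_small (4 * c) (by positivity),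
    eventually_ge_atTop 1, thr_atTop.eventually_ge_atTop 0] with m h1 h2 h3 h4
  have hm0 : (0 : ℝ) < m := by exact_mod_cast h3
  by_cases hm : Even m
  · have hfl : (⌊c * thr m⌋₊ : ℝ) ≤ c * thr m := Nat.floor_le (by positivity)
    have hy : 2 * ⌊c * thr m⌋₊ < m := by
      have : 2 * (⌊c * thr m⌋₊ : ℝ) < m := by linarith
      exact_mod_cast this
    refine (measureReal_mono (EX_sub A c m (by omega) (by positivity))).trans ?_
    rw [real_F A hA hind m _ hy]
    simp only [hP]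
    have h5 : ∏ k ∈ Ioc 0 ⌊c * thr m⌋₊, (1 - q T k * q T (m - k)) ≤
        Real.exp (-∑ k ∈ Ioc 0 ⌊c * thr m⌋₊, q T k * q T (m - k)) := by
      rw [← sum_neg_distrib, Real.exp_sum]
      refine prod_le_prod (fun j _ => ?_) fun j _ => ?_
      · have a1 := q_le_one T j
        have a2 := q_le_one T (m - j)
        have a3 := q_nonneg T j
        have a4 := q_nonneg T (m - j)
        nlinarith
      · have := Real.add_one_le_exp (-(q T j * q T (m - j)))
        linarith
    refine h5.trans ?_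
    rw [Real.rpow_def_of_pos hm0]
    apply Real.exp_le_exp.2
    have := h1 hm
    linarith
  · have e : EX A c m = ∅ := by
      unfold EX
      ext ω
      simp [hm]
    rw [e, measureReal_empty]
    positivity

/-- the number of the exceptional even numbers up to `x` -/
noncomputable def NX (A : ℕ → Set Ω) (c : ℝ) (x : ℕ) (ω : Ω) : ℕ := {m | m ≤ x ∧ ω ∈ EX A c m}.ncard

omit [MeasurableSpace Ω] in
theorem NX_fin (A : ℕ → Set Ω) (c : ℝ) (x : ℕ) (ω : Ω) : {m | m ≤ x ∧ ω ∈ EX A c m}.Finite :=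
  (Set.finite_Iic x).subset fun _ hn => hn.1

omit [MeasurableSpace Ω] in
theorem NX_mono (A : ℕ → Set Ω) (c : ℝ) (x x' : ℕ) (h : x ≤ x') (ω : Ω) : NX A c x ω ≤ NX A c x' ω := by
  unfold NX
  exact Set.ncard_le_ncard (fun m hm => ⟨hm.1.trans h, hm.2⟩) (NX_fin A c x' ω)

omit [MeasurableSpace Ω] in
open Classical in
theorem NX_eq (A : ℕ → Set Ω) (c : ℝ) (x : ℕ) (ω : Ω) :
    (NX A c x ω : ℝ) = ∑ m ∈ range (x + 1), (if ω ∈ EX A c m then (1 : ℝ) else 0) := by
  unfold NX
  have e : {m | m ≤ x ∧ ω ∈ EX A c m} = ((range (x + 1)).filter (fun m => ω ∈ EX A c m) : Finset ℕ) := by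
    ext m
    simp [Nat.lt_succ_iff]
  rw [e, Set.ncard_coe_finset, card_filter, Nat.cast_sum]
  push_cast
  rfl

include hT hT2 hlog in
/-- **Upper bound.** -/
theorem up_ae [IsProbabilityMeasure P] (A : ℕ → Set Ω) (hA : ∀ k, MeasurableSet (A k))
    (hind : iIndepSet A P) (hP : ∀ k, P.real (A k) = q T k) (σ : ℝ) (hσ : 0 < σ) (hσS : ∀ k, σ ≤ S2 (T k))
    (c s : ℝ) (hc : 0 < c) (hs : 0 ≤ s) (hsc : 1 - c * σ / 2 < s) :
    ∀ᵐ ω ∂P, ∃ C : ℝ, ∀ x : ℕ, (NX A c x ω : ℝ) ≤ C * ((x : ℝ) + 1) ^ s := by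
  classical
  have hcσ : 0 < c * σ := by positivity
  set η := min (c * σ / 4) ((s + c * σ / 2 - 1) / 2) with hη
  have hη0 : 0 < η := lt_min (by positivity) (by linarith)
  have hηc : η < c * σ / 2 := (min_le_left _ _).trans_lt (by linarith)
  have hηs : 1 < s + (c * σ / 2 - η) := by
    have : η ≤ (s + c * σ / 2 - 1) / 2 := min_le_right _ _
    linarith
  set f : ℕ → ℝ := fun k => ((k : ℝ) + 1) ^ (-s) * P.real (EX A c k) with hf
  have hf0 : ∀ k, 0 ≤ f k := fun k => by
    simp only [hf]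
    positivity
  have hfs : Summable f := by
    have h1 : Summable (fun k : ℕ => (k : ℝ) ^ (-(s + (c * σ / 2 - η)))) :=
      Real.summable_nat_rpow.2 (by linarith)
    refine summable_of_isBigO_nat h1 ?_
    refine Asymptotics.IsBigO.of_bound 1 ?_
    filter_upwards [PEX_le T hT hT2 hlog A hA hind hP σ hσ hσS c η hc hη0 hηc, eventually_ge_atTop 1] with k h2 h3
    have hk0 : (0 : ℝ) < k := by exact_mod_cast h3
    rw [Real.norm_of_nonneg (hf0 k), Real.norm_of_nonneg (by positivity), one_mul]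
    simp only [hf]
    calc ((k : ℝ) + 1) ^ (-s) * P.real (EX A c k) ≤ (k : ℝ) ^ (-s) * (k : ℝ) ^ (-(c * σ / 2 - η)) := by
          have : ((k : ℝ) + 1) ^ (-s) ≤ (k : ℝ) ^ (-s) :=
            Real.rpow_le_rpow_of_nonpos hk0 (by linarith) (by linarith)
          gcongr
      _ = _ := by
          rw [← Real.rpow_add hk0]
          congr 1
          ring
  set W : Ω → ℝ≥0∞ := fun ω => ∑' k : ℕ, (EX A c k).indicator
    (fun _ => ENNReal.ofReal (((k : ℝ) + 1) ^ (-s))) ω with hW
  have hEm : ∀ k, MeasurableSet (EX A c k) := measurable_EX A hA c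
  have hWi : ∫⁻ ω, W ω ∂P ≠ ∞ := by
    simp only [hW]
    rw [lintegral_tsum fun k => (measurable_const.indicator (hEm k)).aemeasurable]
    have h1 : ∀ k : ℕ, ∫⁻ ω, (EX A c k).indicator (fun _ => ENNReal.ofReal (((k : ℝ) + 1) ^ (-s))) ω ∂P =
        ENNReal.ofReal (f k) := by
      intro k
      rw [lintegral_indicator_const (hEm k)]
      simp only [hf]
      rw [ENNReal.ofReal_mul (by positivity), ofReal_measureReal]
    simp only [h1]
    exact hfs.tsum_ofReal_ne_top
  have hWm : Measurable W := by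
    simp only [hW]
    exact Measurable.tsum fun k => measurable_const.indicator (hEm k)
  filter_upwards [ae_lt_top hWm hWi] with ω hω
  refine ⟨(W ω).toReal, fun x => ?_⟩
  rw [NX_eq A c x ω]
  have hx0 : (0 : ℝ) < (x : ℝ) + 1 := by positivity
  have h1 : ∑ m ∈ range (x + 1), (if ω ∈ EX A c m then (1 : ℝ) else 0) ≤ ∑ k ∈ range (x + 1), ((x : ℝ) + 1) ^ s *
      (EX A c k).indicator (fun _ => ((k : ℝ) + 1) ^ (-s)) ω := by
    refine sum_le_sum fun k hk => ?_
    rw [mem_range] at hk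
    by_cases h : ω ∈ EX A c k
    · rw [if_pos h, Set.indicator_of_mem h]
      have hk0 : (0 : ℝ) < (k : ℝ) + 1 := by positivity
      have hkx : (k : ℝ) + 1 ≤ (x : ℝ) + 1 := by
        have : (k : ℝ) ≤ x := by exact_mod_cast (by omega : k ≤ x)
        linarith
      rw [Real.rpow_neg hk0.le]
      have h2 : ((k : ℝ) + 1) ^ s ≤ ((x : ℝ) + 1) ^ s := Real.rpow_le_rpow hk0.le hkx hs
      rw [← div_eq_mul_inv, le_div_iff₀ (by positivity), one_mul]
      exact h2
    · rw [if_neg h, Set.indicator_of_notMem h, mul_zero]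
  refine h1.trans ?_
  rw [← mul_sum, mul_comm]
  gcongr
  rw [← ENNReal.ofReal_le_iff_le_toReal hω.ne, ENNReal.ofReal_sum_of_nonneg]
  · refine le_trans (le_of_eq ?_) (ENNReal.sum_le_tsum (range (x + 1)))
    refine sum_congr rfl fun k _ => ?_
    by_cases h : ω ∈ EX A c k
    · rw [Set.indicator_of_mem h, Set.indicator_of_mem h]
    · rw [Set.indicator_of_notMem h, Set.indicator_of_notMem h, ENNReal.ofReal_zero]
  · intro k _
    refine Set.indicator_nonneg (fun _ _ => by positivity) _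

end

end Pool.Agent.T2H32.GB
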